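import Mathlib

set_option autoImplicit false

open scoped Manifold ContDiff Topology Bundle
open Set Filter Bundle

namespace Pool.Agent.H721R2

section

variable {E : Type*} [NormedAddCommGroup E] [NormedSpace ℝ E]
  {M : Type*} [TopologicalSpace M] [ChartedSpace E M]

/-- absolute homogeneity on each tangent space -/
def FibreHomog (N : TangentBundle 𝓘(ℝ, E) M → ℝ) : Prop :=
  ∀ (x : M) (c : ℝ) (v : TangentSpace 𝓘(ℝ, E) x), N ⟨x, c • v⟩ = |c| * N ⟨x, v⟩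

/-- triangle inequality on each tangent space -/
def FibreSubadd (N : TangentBundle 𝓘(ℝ, E) M → ℝ) : Prop :=
  ∀ (x : M) (v w : TangentSpace 𝓘(ℝ, E) x), N ⟨x, v + w⟩ ≤ N ⟨x, v⟩ + N ⟨x, w⟩

/-- positivity off the zero vector on each tangent space -/
def FibrePos (N : TangentBundle 𝓘(ℝ, E) M → ℝ) : Prop :=
  ∀ (x : M) (v : TangentSpace 𝓘(ℝ, E) x), v ≠ 0 → 0 < N ⟨x, v⟩

/-- `N` is a continuous norm on the tangent bundle of `M` (for instance the norm of a Riemannian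
metric, or a reversible Finsler norm). -/
structure IsTangentNorm [IsManifold 𝓘(ℝ, E) 1 M] (N : TangentBundle 𝓘(ℝ, E) M → ℝ) : Prop where
  continuous : Continuous N
  pos : FibrePos N
  smul : FibreHomog N
  add : FibreSubadd N

/-- The field of tangent subspaces `V` satisfies `Df (V x) = V (f x)` for all `x`. -/
def InvariantField (f : M → M) (V : ∀ x : M, Submodule ℝ (TangentSpace 𝓘(ℝ, E) x)) : Prop :=
  ∀ x : M, (V x).map (mfderiv 𝓘(ℝ, E) 𝓘(ℝ, E) f x).toLinearMap = V (f x)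

/-- `C⁻¹ aⁿ N(v) ≤ N(Dfⁿ v) ≤ C bⁿ N(v)` for all `n ≥ 0` and all `v ∈ V`. -/
def RatesOn (f : M → M) (N : TangentBundle 𝓘(ℝ, E) M → ℝ)
    (V : ∀ x : M, Submodule ℝ (TangentSpace 𝓘(ℝ, E) x)) (C a b : ℝ) : Prop :=
  ∀ (n : ℕ) (x : M), ∀ v ∈ V x,
    C⁻¹ * a ^ n * N ⟨x, v⟩ ≤ N (tangentMap 𝓘(ℝ, E) 𝓘(ℝ, E) (f^[n]) ⟨x, v⟩) ∧
    N (tangentMap 𝓘(ℝ, E) 𝓘(ℝ, E) (f^[n]) ⟨x, v⟩) ≤ C * b ^ n * N ⟨x, v⟩

/-- `Es ⊕ Eu` is a `Df`-invariant splitting of the tangent bundle of `M`, and for all `n ≥ 0`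
`C⁻¹ μ₁ⁿ ‖v‖ ≤ ‖Dfⁿ v‖ ≤ C μ₂ⁿ ‖v‖` on `Es` and `C⁻¹ l₁ⁿ ‖v‖ ≤ ‖Dfⁿ v‖ ≤ C l₂ⁿ ‖v‖` on `Eu`,
where `‖·‖ = N` and `0 < μ₁ ≤ μ₂ < 1 < l₁ ≤ l₂`.  (So `f` is Anosov; every Anosov
diffeomorphism of a closed manifold admits such constants.) -/
structure AnosovRates (f : M → M) (N : TangentBundle 𝓘(ℝ, E) M → ℝ)
    (Es Eu : ∀ x : M, Submodule ℝ (TangentSpace 𝓘(ℝ, E) x)) (C μ₁ μ₂ l₁ l₂ : ℝ) : Prop where
  C_pos : 0 < C
  mu_pos : 0 < μ₁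
  mu_le : μ₁ ≤ μ₂
  mu_lt : μ₂ < 1
  lam_gt : 1 < l₁
  lam_le : l₁ ≤ l₂
  isCompl : ∀ x : M, IsCompl (Es x) (Eu x)
  map_s : InvariantField f Es
  map_u : InvariantField f Eu
  rate_s : RatesOn f N Es C μ₁ μ₂
  rate_u : RatesOn f N Eu C l₁ l₂

/-- Topological transitivity: some forward iterate of `U` meets `V`, for all nonempty open sets
`U` and `V`. -/
def TopTransitive {M : Type*} [TopologicalSpace M] (f : M → M) : Prop :=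
  ∀ U V : Set M, IsOpen U → U.Nonempty → IsOpen V → V.Nonempty →
    ∃ n : ℕ, (f^[n] '' U ∩ V).Nonempty

end

end Pool.Agent.H721R2
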