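import Pool.Agent.H66.L.S8.H721R2.Chain

set_option autoImplicit false

namespace Pool.Agent.H721R2

/-- Forward closeness relation. -/
def FRel {Y : Type*} [MetricSpace Y] (g : Y → Y) (ε : ℝ) (x y : Y) : Prop :=
  ∀ k : ℕ, dist (g^[k] x) (g^[k] y) ≤ ε

section FRel

variable {Y : Type*} [MetricSpace Y] {g : Y → Y} {ε ε' : ℝ} {x y z : Y}

theorem FRel.symm (h : FRel g ε x y) : FRel g ε y x := fun k => by rw [dist_comm]; exact h k

theorem FRel.mono (h : FRel g ε x y) (he : ε ≤ ε') : FRel g ε' x y := fun k => (h k).trans he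

theorem FRel.trans (h : FRel g ε x y) (h' : FRel g ε' y z) : FRel g (ε + ε') x z :=
  fun k => (dist_triangle _ (g^[k] y) _).trans (add_le_add (h k) (h' k))

theorem FRel.iter (h : FRel g ε x y) (m : ℕ) : FRel g ε (g^[m] x) (g^[m] y) := fun k => by
  rw [← Function.iterate_add_apply, ← Function.iterate_add_apply]; exact h _

theorem FRel.dist_le (h : FRel g ε x y) : dist x y ≤ ε := h 0

theorem FRel.refl (hε : 0 ≤ ε) (x : Y) : FRel g ε x x := fun k => by rw [dist_self]; exact hε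

end FRel

/-- A chain system: the data used by the pinching argument, without any continuity. -/
structure CSys (Y : Type*) [MetricSpace Y] where
  g : Y ≃ Y
  K : ℝ
  δ : ℝ
  α : ℝ
  β : ℝ
  εs : ℝ
  ms : ℕ
  mu : ℕ
  one_le_K : 1 ≤ K
  δ_pos : 0 < δ
  α_pos : 0 ≤ α
  β_pos : 0 ≤ β
  α_le : α ≤ 1 / 2
  β_le : β ≤ 1 / 2
  hδ : (36 * K + 2) * δ ≤ εs
  contrS : ∀ x y : Y, FRel g εs x y → ∀ k : ℕ, dist (g^[k] x) (g^[k] y) ≤ α ^ k * dist x y
  contrU : ∀ x y : Y, FRel g.symm εs x y → ∀ k : ℕ,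
    dist (g.symm^[k] x) (g.symm^[k] y) ≤ β ^ k * dist x y
  lp : ∀ x y : Y, dist x y ≤ 2 * δ →
    ∃ z, FRel g (9 * K * dist x y) x z ∧ FRel g.symm (9 * K * dist x y) z y
  subS : ∀ x y : Y, FRel g δ x y → Chain (FRel g δ) ms (g.symm x) (g.symm y)
  subU : ∀ x y : Y, FRel g.symm δ x y → Chain (FRel g.symm δ) mu (g x) (g y)

section Equiv

variable {Y : Type*} (g : Y ≃ Y)

theorem eq_symm_iter_iter (n : ℕ) (x : Y) : g.symm^[n] (g^[n] x) = x := by
  induction n generalizing x with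
  | zero => rfl
  | succ n ih =>
    rw [Function.iterate_succ_apply' g, Function.iterate_succ_apply g.symm,
      Equiv.symm_apply_apply]
    exact ih x

theorem eq_iter_symm_iter (n : ℕ) (x : Y) : g^[n] (g.symm^[n] x) = x :=
  eq_symm_iter_iter g.symm n x

theorem iter_symm_iter_of_le (n k : ℕ) (h : k ≤ n) (x : Y) :
    g^[n] (g.symm^[k] x) = g^[n - k] x := by
  obtain ⟨j, rfl⟩ := Nat.exists_eq_add_of_le' h
  rw [Function.iterate_add_apply, eq_iter_symm_iter, Nat.add_sub_cancel]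

theorem iter_symm_iter_of_le' (n k : ℕ) (h : k ≤ n) (x : Y) :
    g^[k] (g.symm^[n] x) = g.symm^[n - k] x := by
  obtain ⟨j, rfl⟩ := Nat.exists_eq_add_of_le h
  rw [Function.iterate_add_apply, eq_iter_symm_iter, Nat.add_sub_cancel_left]

end Equiv

namespace CSys

variable {Y : Type*} [MetricSpace Y] (T : CSys Y)

/-- The inverse system (as far as chains are concerned). -/
theorem pullS (k N : ℕ) (x y : Y) (h : Chain (FRel T.g T.δ) N x y) :
    Chain (FRel T.g T.δ) (T.ms ^ k * N) (T.g.symm^[k] x) (T.g.symm^[k] y) := by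
  induction k with
  | zero => simpa using h
  | succ k ih =>
    rw [Function.iterate_succ_apply', Function.iterate_succ_apply', pow_succ', mul_assoc]
    exact ih.flatten T.g.symm T.subS

theorem pushU (k N : ℕ) (x y : Y) (h : Chain (FRel T.g.symm T.δ) N x y) :
    Chain (FRel T.g.symm T.δ) (T.mu ^ k * N) (T.g^[k] x) (T.g^[k] y) := by
  induction k with
  | zero => simpa using h
  | succ k ih =>
    rw [Function.iterate_succ_apply', Function.iterate_succ_apply', pow_succ', mul_assoc]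
    exact ih.flatten T.g T.subU

/-- One push of a stable chain by an unstable displacement of its base point. -/
theorem push (n N : ℕ) (hn : 2 * (N : ℝ) * T.α ^ n ≤ 1)
    (ρ : ℝ) (hρ : ρ ≤ 2 * T.δ) (hρ0 : 0 ≤ ρ) (p : ℕ → Y)
    (hp : ∀ i < N, FRel T.g ρ (p i) (p (i + 1)))
    (B : Y) (hB : FRel T.g.symm T.δ (T.g^[n] (p 0)) B) :
    ∃ p' : ℕ → Y, T.g^[n] (p' 0) = B ∧
      (∀ i < N, FRel T.g (ρ + 36 * T.K * T.β ^ n * T.δ) (p' i) (p' (i + 1))) ∧
      (∀ i ≤ N, FRel T.g.symm (18 * (T.K * T.δ)) (T.g^[n] (p i)) (T.g^[n] (p' i))) := by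
  have hK := T.one_le_K
  have hK0 : 0 < T.K := by linarith
  have hδ0 := T.δ_pos
  have hα0 := T.α_pos
  have hβ0 := T.β_pos
  have hβ1 : T.β ≤ 1 := by linarith [T.β_le]
  have hα1 : T.α ≤ 1 := by linarith [T.α_le]
  have hKδ : T.δ ≤ T.K * T.δ := by nlinarith
  have hε : 36 * (T.K * T.δ) + 2 * T.δ ≤ T.εs := by
    have := T.hδ
    linarith
  -- closeness at time n
  have hA : ∀ i ≤ N, dist (T.g^[n] (p 0)) (T.g^[n] (p i)) ≤ i * (T.α ^ n * (2 * T.δ)) := by
    intro i
    induction i with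
    | zero => intro _; simp
    | succ i ih =>
      intro hi
      have h1 := ih (by omega)
      have h2 : FRel T.g T.εs (p i) (p (i + 1)) := (hp i (by omega)).mono (by linarith)
      have h3 := T.contrS _ _ h2 n
      have h4 : dist (p i) (p (i + 1)) ≤ 2 * T.δ := ((hp i (by omega)).dist_le).trans hρ
      have h5 : T.α ^ n * dist (p i) (p (i + 1)) ≤ T.α ^ n * (2 * T.δ) :=
        mul_le_mul_of_nonneg_left h4 (by positivity)
      have h6 := dist_triangle (T.g^[n] (p 0)) (T.g^[n] (p i)) (T.g^[n] (p (i + 1)))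
      push_cast
      linarith
  have hA' : ∀ i ≤ N, dist (T.g^[n] (p 0)) (T.g^[n] (p i)) ≤ T.δ := by
    intro i hi
    refine (hA i hi).trans ?_
    have h1 : (i : ℝ) ≤ N := by exact_mod_cast hi
    have h2 : (i : ℝ) * (T.α ^ n * (2 * T.δ)) ≤ N * (T.α ^ n * (2 * T.δ)) :=
      mul_le_mul_of_nonneg_right h1 (by positivity)
    have h3 : (N : ℝ) * (T.α ^ n * (2 * T.δ)) = (2 * N * T.α ^ n) * T.δ := by ring
    have h4 : (2 * N * T.α ^ n) * T.δ ≤ 1 * T.δ := mul_le_mul_of_nonneg_right hn hδ0.le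
    linarith
  have hW : ∀ i : ℕ, ∃ w : Y, (i = 0 → w = B) ∧ (i ≤ N → FRel T.g (18 * (T.K * T.δ)) B w ∧
      FRel T.g.symm (18 * (T.K * T.δ)) (T.g^[n] (p i)) w) := by
    intro i
    by_cases hi0 : i = 0
    · subst hi0
      refine ⟨B, fun _ => rfl, fun _ => ⟨FRel.refl (by positivity) B, hB.mono (by linarith)⟩⟩
    by_cases hi : i ≤ N
    · have h1 : dist B (T.g^[n] (p i)) ≤ 2 * T.δ := by
        have h2 := hA' i hi
        have h3 := hB.dist_le
        have h4 := dist_triangle B (T.g^[n] (p 0)) (T.g^[n] (p i))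
        rw [dist_comm B (T.g^[n] (p 0))] at h4
        linarith
      obtain ⟨w, hw1, hw2⟩ := T.lp _ _ h1
      have h5 : 9 * T.K * dist B (T.g^[n] (p i)) ≤ 18 * (T.K * T.δ) := by
        have : 9 * T.K * dist B (T.g^[n] (p i)) ≤ 9 * T.K * (2 * T.δ) :=
          mul_le_mul_of_nonneg_left h1 (by positivity)
        linarith
      exact ⟨w, fun h => absurd h hi0, fun _ => ⟨hw1.mono h5, (hw2.mono h5).symm⟩⟩
    · exact ⟨B, fun h => absurd h hi0, fun h => absurd h hi⟩
  choose w hw0 hw using hW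
  refine ⟨fun i => T.g.symm^[n] (w i), ?_, ?_, ?_⟩
  · show T.g^[n] (T.g.symm^[n] (w 0)) = B
    rw [eq_iter_symm_iter, hw0 0 rfl]
  · intro i hi
    obtain ⟨s1, u1⟩ := hw i hi.le
    obtain ⟨s2, u2⟩ := hw (i + 1) hi
    -- backward closeness to the unperturbed chain
    have hback : ∀ l : ℕ, l ≤ N → ∀ j : ℕ, dist (T.g.symm^[j] (T.g^[n] (p l)))
        (T.g.symm^[j] (w l)) ≤ T.β ^ j * (18 * (T.K * T.δ)) := by
      intro l hl j
      have h1 := (hw l hl).2
      have h2 := T.contrU _ _ (h1.mono (by linarith)) j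
      exact h2.trans (mul_le_mul_of_nonneg_left h1.dist_le (by positivity))
    have hclose : FRel T.g T.εs (T.g.symm^[n] (w i)) (T.g.symm^[n] (w (i + 1))) := by
      intro k
      by_cases hk : k ≤ n
      · rw [iter_symm_iter_of_le' _ _ _ hk, iter_symm_iter_of_le' _ _ _ hk]
        have e : ∀ z : Y, T.g.symm^[n - k] (T.g^[n] z) = T.g^[k] z := by
          intro z
          have := iter_symm_iter_of_le' T.g.symm n (n - k) (by omega) z
          have h3 : n - (n - k) = k := by omega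
          rw [h3] at this
          exact this
        have h1 := hback i hi.le (n - k)
        have h2 := hback (i + 1) hi (n - k)
        rw [e] at h1 h2
        have h3 : dist (T.g^[k] (p i)) (T.g^[k] (p (i + 1))) ≤ ρ := hp i hi k
        have h4 : T.β ^ (n - k) * (18 * (T.K * T.δ)) ≤ 1 * (18 * (T.K * T.δ)) :=
          mul_le_mul_of_nonneg_right (pow_le_one₀ hβ0 hβ1) (by positivity)
        have h5 := dist_triangle4 (T.g.symm^[n - k] (w i)) (T.g^[k] (p i)) (T.g^[k] (p (i + 1)))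
          (T.g.symm^[n - k] (w (i + 1)))
        rw [dist_comm (T.g.symm^[n - k] (w i)) (T.g^[k] (p i))] at h5
        linarith
      · push Not at hk
        have e1 : ∀ z : Y, T.g^[k] (T.g.symm^[n] z) = T.g^[k - n] z := fun z =>
          iter_symm_iter_of_le T.g k n hk.le z
        rw [e1, e1]
        have h1 := (s1.symm.trans s2) (k - n)
        linarith
    have h0 : dist (T.g.symm^[n] (w i)) (T.g.symm^[n] (w (i + 1))) ≤
        ρ + 36 * T.K * T.β ^ n * T.δ := by
      have h1 := hback i hi.le n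
      have h2 := hback (i + 1) hi n
      rw [eq_symm_iter_iter] at h1 h2
      have h3 := (hp i hi).dist_le
      have h5 := dist_triangle4 (T.g.symm^[n] (w i)) (p i) (p (i + 1))
          (T.g.symm^[n] (w (i + 1)))
      rw [dist_comm (T.g.symm^[n] (w i)) (p i)] at h5
      linarith
    intro k
    refine (T.contrS _ _ hclose k).trans ?_
    calc T.α ^ k * dist (T.g.symm^[n] (w i)) (T.g.symm^[n] (w (i + 1)))
        ≤ 1 * dist (T.g.symm^[n] (w i)) (T.g.symm^[n] (w (i + 1))) :=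
          mul_le_mul_of_nonneg_right (pow_le_one₀ hα0 hα1) dist_nonneg
      _ ≤ _ := by rw [one_mul]; exact h0
  · intro i hi
    show FRel T.g.symm _ _ (T.g^[n] (T.g.symm^[n] (w i)))
    rw [eq_iter_symm_iter]
    exact (hw i hi).2

/-- Moving a stable chain along a whole unstable chain of its base (at time `n`). -/
theorem stage (n N j : ℕ) (hn : 2 * (N : ℝ) * T.α ^ n ≤ 1) (ρ : ℝ) (hρ0 : 0 ≤ ρ)
    (hj : ρ + j * (36 * T.K * T.β ^ n * T.δ) ≤ 2 * T.δ) (p : ℕ → Y)
    (hp : ∀ i < N, FRel T.g ρ (p i) (p (i + 1)))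
    (y : ℕ → Y) (hy0 : y 0 = T.g^[n] (p 0)) (hy : ∀ l < j, FRel T.g.symm T.δ (y l) (y (l + 1))) :
    ∀ l ≤ j, ∃ p' : ℕ → Y, T.g^[n] (p' 0) = y l ∧
      (∀ i < N, FRel T.g (ρ + l * (36 * T.K * T.β ^ n * T.δ)) (p' i) (p' (i + 1))) ∧
      Chain (FRel T.g.symm (18 * (T.K * T.δ))) l (T.g^[n] (p N)) (T.g^[n] (p' N)) := by
  have hK := T.one_le_K
  have hK0 : 0 < T.K := by linarith
  have hδ0 := T.δ_pos
  have hβ0 := T.β_pos
  have hq0 : 0 ≤ 36 * T.K * T.β ^ n * T.δ := by positivity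
  intro l
  induction l with
  | zero =>
    intro _
    refine ⟨p, hy0.symm, ?_, Chain.refl _⟩
    simpa using hp
  | succ l ih =>
    intro hl
    obtain ⟨p', h1, h2, h3⟩ := ih (by omega)
    have hl' : (l : ℝ) ≤ j := by exact_mod_cast (by omega : l ≤ j)
    have h4 : ρ + (l : ℝ) * (36 * T.K * T.β ^ n * T.δ) ≤ 2 * T.δ := by
      have := mul_le_mul_of_nonneg_right hl' hq0
      linarith
    have hB : FRel T.g.symm T.δ (T.g^[n] (p' 0)) (y (l + 1)) := by
      rw [h1]; exact hy l (by omega)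
    obtain ⟨p'', h6, h7, h8⟩ := T.push n N hn _ h4 (by positivity) p' h2 _ hB
    refine ⟨p'', h6, ?_, ?_⟩
    · intro i hi
      have := h7 i hi
      refine this.mono (le_of_eq ?_)
      push_cast
      ring
    · exact h3.trans (Chain.single (h8 N le_rfl))

/-- The corner theorem: a chain of `R` small steps can be replaced by a stable chain followed by
an unstable chain, with control. -/
theorem corner (k n R : ℕ) (hkn : k ≤ n)
    (h1 : 2 * ((R * T.ms ^ k : ℕ) : ℝ) * T.α ^ n ≤ 1)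
    (h2 : 36 * T.K * T.β ^ n * ((R * T.mu ^ (n - k) : ℕ) : ℝ) ≤ 1) (x : ℕ → Y)
    (hx : ∀ i < R, ∃ z, FRel T.g T.δ (x i) z ∧ FRel T.g.symm T.δ z (x (i + 1))) :
    ∀ j ≤ R, ∃ p : ℕ → Y, p 0 = T.g.symm^[k] (x (R - j)) ∧
      (∀ i < j * T.ms ^ k, FRel T.g (T.δ + ((j * T.mu ^ (n - k) : ℕ) : ℝ) *
        (36 * T.K * T.β ^ n * T.δ)) (p i) (p (i + 1))) ∧
      Chain (FRel T.g.symm (18 * (T.K * T.δ))) (j * T.mu ^ (n - k))
        (T.g^[n] (p (j * T.ms ^ k))) (T.g^[n - k] (x R)) := by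
  have hK := T.one_le_K
  have hK0 : 0 < T.K := by linarith
  have hδ0 := T.δ_pos
  have hβ0 := T.β_pos
  have hα0 := T.α_pos
  have hq0 : 0 ≤ 36 * T.K * T.β ^ n * T.δ := by positivity
  have hbound : ∀ j : ℕ, j ≤ R → T.δ + ((j * T.mu ^ (n - k) : ℕ) : ℝ) *
      (36 * T.K * T.β ^ n * T.δ) ≤ 2 * T.δ := by
    intro j hj
    have e1 : ((j * T.mu ^ (n - k) : ℕ) : ℝ) ≤ ((R * T.mu ^ (n - k) : ℕ) : ℝ) := by
      exact_mod_cast Nat.mul_le_mul_right _ hj
    have e2 := mul_le_mul_of_nonneg_right e1 hq0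
    have e3 := mul_le_mul_of_nonneg_right h2 hδ0.le
    linarith
  intro j
  induction j with
  | zero =>
    intro _
    refine ⟨fun _ => T.g.symm^[k] (x R), rfl, fun i hi => by simp at hi, ?_⟩
    simp only [zero_mul]
    rw [iter_symm_iter_of_le _ _ _ hkn]
    exact Chain.refl _
  | succ j ih =>
    intro hj
    obtain ⟨p, hp0, hp, hpU⟩ := ih (by omega)
    obtain ⟨z, hz1, hz2⟩ := hx (R - (j + 1)) (by omega)
    have hR : R - (j + 1) + 1 = R - j := by omega
    rw [hR] at hz2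
    -- the unstable chain of the base
    have hUc := T.pushU (n - k) 1 _ _ (Chain.single hz2.symm)
    rw [mul_one] at hUc
    obtain ⟨y, hy0, hy1, hy⟩ := hUc
    have hy0' : y 0 = T.g^[n] (p 0) := by
      rw [hy0, hp0, iter_symm_iter_of_le _ _ _ hkn]
    have hN : 2 * ((j * T.ms ^ k : ℕ) : ℝ) * T.α ^ n ≤ 1 := by
      refine le_trans ?_ h1
      apply mul_le_mul_of_nonneg_right _ (by positivity)
      apply mul_le_mul_of_nonneg_left _ (by norm_num)
      exact_mod_cast Nat.mul_le_mul_right _ (by omega)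
    have hj1 := hbound (j + 1) hj
    have e3 : T.δ + ((j * T.mu ^ (n - k) : ℕ) : ℝ) * (36 * T.K * T.β ^ n * T.δ) +
        ((T.mu ^ (n - k) : ℕ) : ℝ) * (36 * T.K * T.β ^ n * T.δ) =
        T.δ + (((j + 1) * T.mu ^ (n - k) : ℕ) : ℝ) * (36 * T.K * T.β ^ n * T.δ) := by
      push_cast; ring
    obtain ⟨p', hp'0, hp', hp'U⟩ := T.stage n (j * T.ms ^ k) (T.mu ^ (n - k)) hN _
      (by positivity) (by rw [e3]; exact hj1) p hp y hy0' hy _ le_rfl
    rw [e3] at hp'
    have hp'0' : p' 0 = T.g.symm^[k] z := by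
      rw [hy1] at hp'0
      have h5 : T.g^[n] (p' 0) = T.g^[n] (T.g.symm^[k] z) := by
        rw [hp'0, iter_symm_iter_of_le _ _ _ hkn]
      exact T.g.injective.iterate n h5
    -- the new stable piece
    have hSc := T.pullS k 1 _ _ (Chain.single hz1)
    rw [mul_one] at hSc
    have hSc' := hSc.mono (R' := FRel T.g (T.δ + (((j + 1) * T.mu ^ (n - k) : ℕ) : ℝ) *
        (36 * T.K * T.β ^ n * T.δ))) (fun a b h => h.mono (by
          have : 0 ≤ (((j + 1) * T.mu ^ (n - k) : ℕ) : ℝ) * (36 * T.K * T.β ^ n * T.δ) := by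
            positivity
          linarith))
    have hcat := hSc'.trans (M := j * T.ms ^ k) (z := p' (j * T.ms ^ k)) ⟨p', hp'0', rfl, hp'⟩
    have e4 : T.ms ^ k + j * T.ms ^ k = (j + 1) * T.ms ^ k := by ring
    rw [e4] at hcat
    obtain ⟨c, hc0, hc1, hc⟩ := hcat
    refine ⟨c, hc0, hc, ?_⟩
    rw [hc1]
    have e5 : T.mu ^ (n - k) + j * T.mu ^ (n - k) = (j + 1) * T.mu ^ (n - k) := by ring
    rw [← e5]
    exact (hp'U.symm (fun _ _ h => h.symm)).trans hpU

/-- The consequence used for counting. -/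
theorem corner' (k n R : ℕ) (hkn : k ≤ n)
    (h1 : 2 * ((R * T.ms ^ k : ℕ) : ℝ) * T.α ^ n ≤ 1)
    (h2 : 36 * T.K * T.β ^ n * ((R * T.mu ^ (n - k) : ℕ) : ℝ) ≤ 1) (x : ℕ → Y)
    (hx : ∀ i < R, ∃ z, FRel T.g T.δ (x i) z ∧ FRel T.g.symm T.δ z (x (i + 1))) :
    ∃ q : Y, dist (T.g^[n - k] (x 0)) (T.g^[n - k] q) ≤ T.δ ∧
      dist (T.g.symm^[k] q) (T.g.symm^[k] (x R)) ≤ T.δ := by
  have hK := T.one_le_K
  have hK0 : 0 < T.K := by linarith
  have hδ0 := T.δ_pos
  have hβ0 := T.β_pos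
  have hα0 := T.α_pos
  have hε : 36 * (T.K * T.δ) + 2 * T.δ ≤ T.εs := by
    have := T.hδ
    linarith
  obtain ⟨p, hp0, hp, c, hc0, hc1, hc⟩ := T.corner k n R hkn h1 h2 x hx R le_rfl
  rw [Nat.sub_self] at hp0
  have hb : T.δ + ((R * T.mu ^ (n - k) : ℕ) : ℝ) * (36 * T.K * T.β ^ n * T.δ) ≤ 2 * T.δ := by
    have e3 := mul_le_mul_of_nonneg_right h2 hδ0.le
    linarith
  refine ⟨T.g^[k] (p (R * T.ms ^ k)), ?_, ?_⟩
  · have hA : ∀ i ≤ R * T.ms ^ k, dist (T.g^[n] (p 0)) (T.g^[n] (p i)) ≤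
        i * (T.α ^ n * (2 * T.δ)) := by
      intro i
      induction i with
      | zero => intro _; simp
      | succ i ih =>
        intro hi
        have g1 := ih (by omega)
        have g2 : FRel T.g T.εs (p i) (p (i + 1)) := (hp i (by omega)).mono (by
          have : 0 ≤ T.K * T.δ := by positivity
          linarith)
        have g3 := T.contrS _ _ g2 n
        have g4 : dist (p i) (p (i + 1)) ≤ 2 * T.δ := ((hp i (by omega)).dist_le).trans hb
        have g5 : T.α ^ n * dist (p i) (p (i + 1)) ≤ T.α ^ n * (2 * T.δ) :=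
          mul_le_mul_of_nonneg_left g4 (by positivity)
        have g6 := dist_triangle (T.g^[n] (p 0)) (T.g^[n] (p i)) (T.g^[n] (p (i + 1)))
        push_cast
        linarith
    have h3 := hA _ le_rfl
    have e1 : T.g^[n - k] (x 0) = T.g^[n] (p 0) := by
      rw [hp0, iter_symm_iter_of_le _ _ _ hkn]
    have e2 : T.g^[n - k] (T.g^[k] (p (R * T.ms ^ k))) = T.g^[n] (p (R * T.ms ^ k)) := by
      rw [← Function.iterate_add_apply, Nat.sub_add_cancel hkn]
    rw [e1, e2]
    refine h3.trans ?_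
    have e4 : ((R * T.ms ^ k : ℕ) : ℝ) * (T.α ^ n * (2 * T.δ)) =
        (2 * ((R * T.ms ^ k : ℕ) : ℝ) * T.α ^ n) * T.δ := by ring
    rw [e4]
    have := mul_le_mul_of_nonneg_right h1 hδ0.le
    linarith
  · have hB : ∀ i ≤ R * T.mu ^ (n - k), dist (T.g.symm^[n] (c 0)) (T.g.symm^[n] (c i)) ≤
        i * (T.β ^ n * (18 * (T.K * T.δ))) := by
      intro i
      induction i with
      | zero => intro _; simp
      | succ i ih =>
        intro hi
        have g1 := ih (by omega)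
        have g2 : FRel T.g.symm T.εs (c i) (c (i + 1)) := (hc i (by omega)).mono (by
          have : 0 ≤ T.K * T.δ := by positivity
          linarith)
        have g3 := T.contrU _ _ g2 n
        have g4 : dist (c i) (c (i + 1)) ≤ 18 * (T.K * T.δ) := (hc i (by omega)).dist_le
        have g5 : T.β ^ n * dist (c i) (c (i + 1)) ≤ T.β ^ n * (18 * (T.K * T.δ)) :=
          mul_le_mul_of_nonneg_left g4 (by positivity)
        have g6 := dist_triangle (T.g.symm^[n] (c 0)) (T.g.symm^[n] (c i))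
          (T.g.symm^[n] (c (i + 1)))
        push_cast
        linarith
    have h3 := hB _ le_rfl
    have e1 : T.g.symm^[k] (T.g^[k] (p (R * T.ms ^ k))) = T.g.symm^[n] (c 0) := by
      rw [eq_symm_iter_iter, hc0, eq_symm_iter_iter]
    have e2 : T.g.symm^[n] (c (R * T.mu ^ (n - k))) = T.g.symm^[k] (x R) := by
      rw [hc1]
      have := iter_symm_iter_of_le T.g.symm n (n - k) (by omega) (x R)
      rw [show n - (n - k) = k by omega] at this
      exact this
    rw [e1, ← e2]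
    refine h3.trans ?_
    have e4 : ((R * T.mu ^ (n - k) : ℕ) : ℝ) * (T.β ^ n * (18 * (T.K * T.δ))) =
        (36 * T.K * T.β ^ n * ((R * T.mu ^ (n - k) : ℕ) : ℝ)) * (T.δ / 2) := by ring
    rw [e4]
    have := mul_le_mul_of_nonneg_right h2 (by positivity : 0 ≤ T.δ / 2)
    linarith

end CSys

end Pool.Agent.H721R2
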