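import Pool.Agent.H66.L.S8.H721R2.Setup
import Pool.Agent.H66.L.S8.H721R2.CSys

set_option autoImplicit false

open Set Filter Topology Metric

namespace Pool.Agent.H721R2

/-- Separated subsets of a bounded set in Euclidean space have polynomially bounded size. -/
theorem box_count {X : Type*} [MetricSpace X] (m : ℕ) (e : X → EuclideanSpace ℝ (Fin m))
    (hiso : ∀ x y, dist x y = ‖e x - e y‖) (B : ℝ) (hB0 : 0 ≤ B) (hB : ∀ x, ‖e x‖ ≤ B)
    (ρ : ℝ) (hρ : 0 < ρ) (hρ1 : ρ ≤ 1) (F : Set X)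
    (hF : ∀ x ∈ F, ∀ y ∈ F, dist x y < ρ → x = y) :
    F.Finite ∧ (F.ncard : ℝ) ≤ (2 * B * (m + 1) + 3) ^ m * (1 / ρ) ^ m := by
  classical
  set u : ℝ := ((m : ℝ) + 1) / ρ with hu
  have hu0 : 0 < u := by positivity
  set N : ℤ := ⌈B * u⌉ with hN
  let P : X → (Fin m → ℤ) := fun x i => ⌊e x i * u⌋
  have hcoord : ∀ x i, |e x i| ≤ B := by
    intro x i
    have h1 : ‖e x i‖ ≤ ‖e x‖ := PiLp.norm_apply_le (e x) i
    rw [Real.norm_eq_abs] at h1
    exact h1.trans (hB x)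
  have hP : ∀ x, P x ∈ Fintype.piFinset (fun _ : Fin m => Finset.Icc (-N) N) := by
    intro x
    rw [Fintype.mem_piFinset]
    intro i
    rw [Finset.mem_Icc]
    have h1 := abs_le.mp (hcoord x i)
    have h2 : B * u ≤ N := Int.le_ceil _
    constructor
    · apply Int.le_floor.mpr
      push_cast
      have := mul_le_mul_of_nonneg_right h1.1 hu0.le
      linarith
    · apply Int.floor_le_iff.mpr
      have := mul_le_mul_of_nonneg_right h1.2 hu0.le
      linarith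
  have hinj : Set.InjOn P F := by
    intro x hx y hy hxy
    apply hF x hx y hy
    rw [hiso]
    have hc : ∀ i, |(e x - e y) i| < 1 / u := by
      intro i
      have h1 : ⌊e x i * u⌋ = ⌊e y i * u⌋ := congrFun hxy i
      have h2 := Int.abs_sub_lt_one_of_floor_eq_floor h1
      rw [← sub_mul, abs_mul, abs_of_pos hu0] at h2
      rw [lt_div_iff₀ hu0]
      exact h2
    have h1 : ‖e x - e y‖ ≤ ∑ i : Fin m, |(e x - e y) i| := by
      rw [EuclideanSpace.norm_eq]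
      refine Real.sqrt_le_iff.mpr ⟨Finset.sum_nonneg fun i _ => abs_nonneg _, ?_⟩
      have := Finset.sum_sq_le_sq_sum_of_nonneg (s := Finset.univ)
        (f := fun i : Fin m => |(e x - e y) i|) (fun i _ => abs_nonneg _)
      simpa [Real.norm_eq_abs] using this
    have h2 : ∑ i : Fin m, |(e x - e y) i| ≤ ∑ _i : Fin m, 1 / u :=
      Finset.sum_le_sum fun i _ => (hc i).le
    rw [Finset.sum_const, Finset.card_univ, Fintype.card_fin, nsmul_eq_mul] at h2
    have h3 : (m : ℝ) * (1 / u) < ρ := by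
      rw [hu]
      have : (m : ℝ) * (1 / (((m : ℝ) + 1) / ρ)) = ρ * (m / (m + 1)) := by field_simp
      rw [this]
      have h4 : (m : ℝ) / (m + 1) < 1 := by
        rw [div_lt_one (by positivity)]; linarith
      calc ρ * (m / (m + 1)) < ρ * 1 := mul_lt_mul_of_pos_left h4 hρ
        _ = ρ := mul_one ρ
    linarith
  have hfin : F.Finite := by
    apply Set.Finite.of_finite_image _ hinj
    exact (Finset.finite_toSet (Fintype.piFinset (fun _ : Fin m => Finset.Icc (-N) N))).subset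
      (by rintro _ ⟨x, _, rfl⟩; exact hP x)
  refine ⟨hfin, ?_⟩
  have h1 : F.ncard ≤ (Fintype.piFinset (fun _ : Fin m => Finset.Icc (-N) N)).card := by
    rw [← Set.ncard_coe_finset]
    exact Set.ncard_le_ncard_of_injOn P (fun x _ => hP x) hinj (Finset.finite_toSet _)
  rw [Fintype.card_piFinset, Finset.prod_const, Finset.card_univ, Fintype.card_fin,
    Int.card_Icc] at h1
  have h2 : (((N + 1 - -N).toNat : ℕ) : ℝ) ≤ (2 * B * (m + 1) + 3) * (1 / ρ) := by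
    have h3 : (0 : ℤ) ≤ N + 1 - -N := by
      have : 0 ≤ N := Int.ceil_nonneg (by positivity)
      omega
    have h4 : (((N + 1 - -N).toNat : ℕ) : ℝ) = 2 * (N : ℝ) + 1 := by
      have : (((N + 1 - -N).toNat : ℕ) : ℤ) = N + 1 - -N := Int.toNat_of_nonneg h3
      have h5 : (((N + 1 - -N).toNat : ℕ) : ℝ) = (((N + 1 - -N).toNat : ℤ) : ℝ) := by
        push_cast; rfl
      rw [h5, this]
      push_cast; ring
    rw [h4]
    have h5 : (N : ℝ) < B * u + 1 := Int.ceil_lt_add_one _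
    have h6 : 1 ≤ 1 / ρ := by rw [le_div_iff₀ hρ]; linarith
    have h7 : B * u = B * (m + 1) * (1 / ρ) := by rw [hu]; ring
    rw [h7] at h5
    nlinarith
  calc (F.ncard : ℝ) ≤ (((N + 1 - -N).toNat ^ m : ℕ) : ℝ) := by exact_mod_cast h1
    _ = (((N + 1 - -N).toNat : ℕ) : ℝ) ^ m := by push_cast; rfl
    _ ≤ ((2 * B * (m + 1) + 3) * (1 / ρ)) ^ m := pow_le_pow_left₀ (by positivity) h2 m
    _ = _ := by rw [mul_pow]

/-- The choice of times, with logarithmic control. -/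
theorem log_times (α β K ρ Λ : ℝ) (ms mu : ℕ) (hα0 : 0 < α) (hα1 : α < 1) (hβ0 : 0 < β)
    (hβ1 : β < 1) (hmu : 1 ≤ mu) (hK : 0 ≤ K) (hρ : 1 ≤ ρ) (hΛ : 1 ≤ Λ)
    (h1 : ms * α ^ ρ < 1) (h2 : (mu : ℝ) ^ (ρ - 1) * β ^ ρ < 1) :
    ∃ B : ℕ, ∀ R : ℕ, 1 ≤ R → ∃ k n : ℕ, k ≤ n ∧ 2 * ((R * ms ^ k : ℕ) : ℝ) * α ^ n ≤ 1 ∧
      36 * K * β ^ n * ((R * mu ^ (n - k) : ℕ) : ℝ) ≤ 1 ∧ Λ ^ n ≤ (4 * (R : ℝ)) ^ B := by
  have hmu1 : (1 : ℝ) ≤ mu := by exact_mod_cast hmu
  have hmu0 : (0 : ℝ) < mu := by linarith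
  have hq1 : 0 ≤ ms * α ^ ρ := by positivity
  have hq2 : 0 ≤ (mu : ℝ) ^ (ρ - 1) * β ^ ρ := by positivity
  set D : ℝ := 36 * K * mu with hD
  have hD0 : 0 ≤ D := by positivity
  obtain ⟨k1, ⟨hk1a, hk1b⟩⟩ : ∃ k1 : ℕ, (ms * α ^ ρ) ^ k1 < 1 / 4 ∧
      ((mu : ℝ) ^ (ρ - 1) * β ^ ρ) ^ k1 < 1 / (2 * (D + 1)) := by
    have t1 := (tendsto_order.mp (tendsto_pow_atTop_nhds_zero_of_lt_one hq1 h1)).2 (1 / 4)
      (by norm_num)
    have t2 := (tendsto_order.mp (tendsto_pow_atTop_nhds_zero_of_lt_one hq2 h2)).2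
      (1 / (2 * (D + 1))) (by positivity)
    exact (t1.and t2).exists
  set A : ℕ := ⌈ρ⌉₊ * k1 + 1 with hA
  obtain ⟨B, hB⟩ : ∃ B : ℕ, Λ ^ A < 2 ^ B := pow_unbounded_of_one_lt _ (by norm_num)
  refine ⟨B, fun R hR => ?_⟩
  set ℓ := Nat.clog 2 R + 1 with hℓ
  have hR1 : (R : ℝ) * 2 ≤ 2 ^ ℓ := by
    have : R ≤ 2 ^ Nat.clog 2 R := Nat.le_pow_clog (by norm_num) R
    have h3 : (R : ℝ) ≤ 2 ^ Nat.clog 2 R := by exact_mod_cast this
    rw [hℓ, pow_succ]
    linarith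
  have hR2 : (2 : ℝ) ^ ℓ ≤ 4 * R := by
    rcases Nat.lt_or_ge 1 R with h | h
    · have h3 := Nat.pow_pred_clog_lt_self (b := 2) (by norm_num) h
      have h4 : 0 < Nat.clog 2 R := Nat.clog_pos (by norm_num) h
      have h5 : ℓ = (Nat.clog 2 R).pred + 2 := by
        rw [hℓ, Nat.pred_eq_sub_one]; omega
      rw [h5, pow_add]
      have h6 : (2 : ℝ) ^ (Nat.clog 2 R).pred ≤ R := by exact_mod_cast h3.le
      linarith
    · have : R = 1 := by omega
      subst this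
      simp [hℓ]
      norm_num
  set k := k1 * ℓ with hk
  set n := ⌈ρ * k⌉₊ with hn
  have hρk : 0 ≤ ρ * k := by positivity
  have hn1 : ρ * k ≤ n := Nat.le_ceil _
  have hn2 : (n : ℝ) < ρ * k + 1 := Nat.ceil_lt_add_one hρk
  have hkn : k ≤ n := by
    have : (k : ℝ) ≤ ρ * k := by
      have : (0 : ℝ) ≤ k := by positivity
      nlinarith
    exact_mod_cast this.trans hn1
  have hℓ1 : 1 ≤ ℓ := by omega
  refine ⟨k, n, hkn, ?_, ?_, ?_⟩
  · have h3 : α ^ n ≤ (α ^ ρ) ^ k := by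
      rw [← Real.rpow_natCast α n, ← Real.rpow_natCast (α ^ ρ) k, ← Real.rpow_mul hα0.le]
      exact Real.rpow_le_rpow_of_exponent_ge hα0 hα1.le hn1
    have h4 : (ms * α ^ ρ) ^ k ≤ (1 / 4) ^ ℓ := by
      rw [hk, pow_mul]
      exact pow_le_pow_left₀ (by positivity) hk1a.le ℓ
    calc 2 * ((R * ms ^ k : ℕ) : ℝ) * α ^ n ≤ 2 * ((R * ms ^ k : ℕ) : ℝ) * (α ^ ρ) ^ k :=
          mul_le_mul_of_nonneg_left h3 (by positivity)
      _ = (R * 2) * (ms * α ^ ρ) ^ k := by rw [mul_pow]; push_cast; ring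
      _ ≤ 2 ^ ℓ * (1 / 4) ^ ℓ := mul_le_mul hR1 h4 (by positivity) (by positivity)
      _ = (1 / 2) ^ ℓ := by rw [← mul_pow]; norm_num
      _ ≤ 1 := pow_le_one₀ (by norm_num) (by norm_num)
  · have h3 : β ^ n ≤ (β ^ ρ) ^ k := by
      rw [← Real.rpow_natCast β n, ← Real.rpow_natCast (β ^ ρ) k, ← Real.rpow_mul hβ0.le]
      exact Real.rpow_le_rpow_of_exponent_ge hβ0 hβ1.le hn1
    have h4 : (mu : ℝ) ^ (n - k) ≤ mu * ((mu : ℝ) ^ (ρ - 1)) ^ k := by
      rw [← Real.rpow_natCast (mu : ℝ) (n - k), ← Real.rpow_natCast ((mu : ℝ) ^ (ρ - 1)) k,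
        ← Real.rpow_mul hmu0.le]
      have h5 : (mu : ℝ) * (mu : ℝ) ^ ((ρ - 1) * k) = (mu : ℝ) ^ (1 + (ρ - 1) * k) := by
        rw [Real.rpow_add hmu0, Real.rpow_one]
      rw [h5]
      apply Real.rpow_le_rpow_of_exponent_le hmu1
      push_cast [hkn]
      linarith
    have h5 : ((mu : ℝ) ^ (ρ - 1) * β ^ ρ) ^ k ≤ (1 / (2 * (D + 1))) ^ ℓ := by
      rw [hk, pow_mul]
      exact pow_le_pow_left₀ (by positivity) hk1b.le ℓ
    calc 36 * K * β ^ n * ((R * mu ^ (n - k) : ℕ) : ℝ)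
        ≤ 36 * K * (β ^ ρ) ^ k * (R * (mu * ((mu : ℝ) ^ (ρ - 1)) ^ k)) := by
          push_cast
          apply mul_le_mul
          · exact mul_le_mul_of_nonneg_left h3 (by positivity)
          · exact mul_le_mul_of_nonneg_left h4 (by positivity)
          · positivity
          · positivity
      _ = D * (R * ((mu : ℝ) ^ (ρ - 1) * β ^ ρ) ^ k) := by rw [mul_pow, hD]; ring
      _ ≤ D * (2 ^ ℓ * (1 / (2 * (D + 1))) ^ ℓ) := by
          apply mul_le_mul_of_nonneg_left _ hD0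
          apply mul_le_mul _ h5 (by positivity) (by positivity)
          have : (0 : ℝ) ≤ R := by positivity
          linarith
      _ = D * (1 / (D + 1)) ^ ℓ := by
          rw [← mul_pow]
          congr 2
          field_simp
      _ ≤ D * (1 / (D + 1)) ^ 1 := by
          apply mul_le_mul_of_nonneg_left _ hD0
          apply pow_le_pow_of_le_one (by positivity) _ hℓ1
          rw [div_le_one (by positivity)]; linarith
      _ ≤ 1 := by
          rw [pow_one, mul_one_div, div_le_one (by positivity)]; linarith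
  · have h3 : n ≤ A * ℓ := by
      have h4 : (n : ℝ) < (A * ℓ : ℕ) + 1 := by
        refine hn2.trans_le ?_
        have h5 : ρ ≤ ⌈ρ⌉₊ := Nat.le_ceil _
        have h6 : ρ * k ≤ ⌈ρ⌉₊ * k := mul_le_mul_of_nonneg_right h5 (by positivity)
        rw [hA, hk] at *
        push_cast at *
        have : (0 : ℝ) ≤ ℓ := by positivity
        nlinarith
      have : (n : ℝ) < ((A * ℓ + 1 : ℕ) : ℝ) := by push_cast at h4 ⊢; exact h4
      have := Nat.cast_lt.mp this
      omega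
    calc Λ ^ n ≤ Λ ^ (A * ℓ) := pow_le_pow_right₀ hΛ h3
      _ = (Λ ^ A) ^ ℓ := pow_mul _ _ _
      _ ≤ (2 ^ B) ^ ℓ := pow_le_pow_left₀ (by positivity) hB.le ℓ
      _ = (2 ^ ℓ) ^ B := by rw [← pow_mul, ← pow_mul, mul_comm]
      _ ≤ (4 * (R : ℝ)) ^ B := pow_le_pow_left₀ (by positivity) hR2 B

namespace HypSys

variable {X E : Type*} [MetricSpace X] [NormedAddCommGroup E] [NormedSpace ℝ E]

/-- Local Lipschitz bound for `g`. -/
theorem local_lip (S : HypSys X E) : ∃ r > 0, ∃ Λ : ℝ, 1 ≤ Λ ∧ ∀ x y : X, dist x y < r →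
    dist (S.g x) (S.g y) ≤ Λ * dist x y := by
  have hK := S.one_le_K
  have hK0 : 0 < S.K := by linarith
  have hLu := S.one_le_Lu
  have ha := S.a_nonneg
  obtain ⟨r, hr, h⟩ := S.A1 1 one_pos
  refine ⟨r, hr, 1 + 2 * S.K * (S.a + S.Lu), by nlinarith [mul_nonneg hK0.le (by linarith : 0 ≤ S.a + S.Lu)], fun x y hxy => ?_⟩
  obtain ⟨s, hs, u, hu, h1, h2⟩ := h x y hxy
  have hd : 0 ≤ dist x y := dist_nonneg
  have h3 : ‖s + u‖ ≤ 2 * dist x y := by
    have h4 : ‖S.e y - S.e x‖ = dist x y := by rw [← S.isom, dist_comm]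
    have h5 := norm_sub_le (S.e y - S.e x) (S.e y - S.e x - (s + u))
    rw [sub_sub_cancel] at h5
    linarith
  obtain ⟨h4, h5⟩ := S.angle x s hs u hu
  have h6 : ‖s‖ ≤ 2 * S.K * dist x y := by
    have := mul_le_mul_of_nonneg_left h3 hK0.le
    linarith
  have h7 : ‖u‖ ≤ 2 * S.K * dist x y := by
    have := mul_le_mul_of_nonneg_left h3 hK0.le
    linarith
  have h8 : ‖S.D x s‖ ≤ S.a * (2 * S.K * dist x y) :=
    (S.contrS x s hs).trans (mul_le_mul_of_nonneg_left h6 ha)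
  have h9 : ‖S.D x u‖ ≤ S.Lu * (2 * S.K * dist x y) :=
    (S.boundU x u hu).trans (mul_le_mul_of_nonneg_left h7 (by linarith))
  have h10 : ‖S.D x (s + u)‖ ≤ ‖S.D x s‖ + ‖S.D x u‖ := by
    rw [map_add]; exact norm_add_le _ _
  have h11 : ‖S.e (S.g y) - S.e (S.g x)‖ ≤
      ‖S.e (S.g y) - S.e (S.g x) - S.D x (s + u)‖ + ‖S.D x (s + u)‖ := by
    have := norm_add_le (S.e (S.g y) - S.e (S.g x) - S.D x (s + u)) (S.D x (s + u))
    rwa [sub_add_cancel] at this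
  rw [dist_comm, S.isom]
  have h12 : (1 + 2 * S.K * (S.a + S.Lu)) * dist x y = dist x y + S.a * (2 * S.K * dist x y) +
    S.Lu * (2 * S.K * dist x y) := by ring
  rw [h12]
  linarith

/-- Chain systems at arbitrarily small scales. -/
theorem exists_csys [CompactSpace X] (S : HypSys X E) (α β : ℝ) (hα : S.a < α) (hβ : S.b < β)
    (hα2 : α ≤ 1 / 2) (hβ2 : β ≤ 1 / 2) (ms mu : ℕ) (hms : 4 * S.Ls ≤ ms) (hmu : 4 * S.Lu ≤ mu)
    (η : ℝ) (hη : 0 < η) :
    ∃ T : CSys X, T.g = S.g.toEquiv ∧ T.K = S.K ∧ T.α = α ∧ T.β = β ∧ T.ms = ms ∧ T.mu = mu ∧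
      T.εs ≤ η ∧ ms * T.δ ≤ η ∧ mu * T.δ ≤ η := by
  obtain ⟨e1, he1, h1⟩ := S.contraction_iter α hα
  obtain ⟨e2, he2, h2⟩ := S.symm.contraction_iter β hβ
  obtain ⟨e3, he3, h3⟩ := S.local_product
  obtain ⟨e4, he4, h4⟩ := S.subdivide ms hms
  obtain ⟨e5, he5, h5⟩ := S.symm.subdivide mu hmu
  have hK := S.one_le_K
  have hK0 : 0 < S.K := by linarith
  have hLs := S.one_le_Ls
  have hLu := S.one_le_Lu
  have hms0 : (0 : ℝ) < ms := by linarith
  have hmu0 : (0 : ℝ) < mu := by linarith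
  set εs := min (min e1 e2) η with hεs
  have hεs0 : 0 < εs := lt_min (lt_min he1 he2) hη
  set δ := min (min (min (εs / (36 * S.K + 2)) (e3 / 2)) (min e4 e5))
    (min (η / ms) (η / mu)) with hδ
  have hδ0 : 0 < δ := by
    simp only [hδ, lt_min_iff]
    exact ⟨⟨⟨by positivity, by positivity⟩, he4, he5⟩, by positivity, by positivity⟩
  have d0 : δ ≤ min (min (εs / (36 * S.K + 2)) (e3 / 2)) (min e4 e5) := min_le_left _ _
  have d1 : δ ≤ εs / (36 * S.K + 2) := d0.trans ((min_le_left _ _).trans (min_le_left _ _))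
  have d2 : δ ≤ e3 / 2 := d0.trans ((min_le_left _ _).trans (min_le_right _ _))
  have d3 : δ ≤ e4 := d0.trans ((min_le_right _ _).trans (min_le_left _ _))
  have d4 : δ ≤ e5 := d0.trans ((min_le_right _ _).trans (min_le_right _ _))
  have d5 : δ ≤ η / ms := (min_le_right _ _).trans (min_le_left _ _)
  have d6 : δ ≤ η / mu := (min_le_right _ _).trans (min_le_right _ _)
  refine ⟨{
    g := S.g.toEquiv
    K := S.K
    δ := δ
    α := α
    β := β
    εs := εs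
    ms := ms
    mu := mu
    one_le_K := hK
    δ_pos := hδ0
    α_pos := le_trans S.a_nonneg hα.le
    β_pos := le_trans S.b_nonneg hβ.le
    α_le := hα2
    β_le := hβ2
    hδ := by
      rw [le_div_iff₀ (by positivity)] at d1
      linarith
    contrS := fun x y hxy k => h1 x y (hxy.mono ((min_le_left _ _).trans (min_le_left _ _))) k
    contrU := fun x y hxy k => h2 x y (hxy.mono ((min_le_left _ _).trans (min_le_right _ _))) k
    lp := fun x y hxy => h3 x y (by linarith)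
    subS := fun x y hxy => h4 δ hδ0 d3 x y hxy
    subU := fun x y hxy => h5 δ hδ0 d4 x y hxy }, rfl, rfl, rfl, rfl, rfl, rfl,
    min_le_right _ _, ?_, ?_⟩
  · rw [le_div_iff₀ hms0] at d5
    show (ms : ℝ) * δ ≤ η
    linarith
  · rw [le_div_iff₀ hmu0] at d6
    show (mu : ℝ) * δ ≤ η
    linarith

end HypSys

end Pool.Agent.H721R2
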