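import Pool.Agent.H66.L.S8.H721R2.Subdiv

set_option autoImplicit false

namespace Pool.Agent.H721R2

/-- `Chain R N x y`: `x` and `y` are joined by `N` consecutive `R`-steps. -/
def Chain {X : Type*} (R : X → X → Prop) (N : ℕ) (x y : X) : Prop :=
  ∃ c : ℕ → X, c 0 = x ∧ c N = y ∧ ∀ i < N, R (c i) (c (i + 1))

section chain

variable {X : Type*} {R R' : X → X → Prop}

theorem Chain.refl (x : X) : Chain R 0 x x := ⟨fun _ => x, rfl, rfl, fun i hi => absurd hi (by omega)⟩

theorem Chain.single {x y : X} (h : R x y) : Chain R 1 x y := by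
  refine ⟨fun i => if i = 0 then x else y, by simp, by simp, fun i hi => ?_⟩
  have : i = 0 := by omega
  subst this
  simpa using h

theorem Chain.mono {N : ℕ} {x y : X} (h : Chain R N x y) (hR : ∀ a b, R a b → R' a b) :
    Chain R' N x y := by
  obtain ⟨c, h0, h1, h2⟩ := h
  exact ⟨c, h0, h1, fun i hi => hR _ _ (h2 i hi)⟩

theorem Chain.trans {N M : ℕ} {x y z : X} (h : Chain R N x y) (h' : Chain R M y z) :
    Chain R (N + M) x z := by
  obtain ⟨c, h0, h1, h2⟩ := h
  obtain ⟨c', h0', h1', h2'⟩ := h'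
  refine ⟨fun i => if i < N then c i else c' (i - N), ?_, ?_, ?_⟩
  · by_cases hN : 0 < N
    · simp [hN, h0]
    · have : N = 0 := by omega
      subst this
      simp only [lt_self_iff_false, if_false, Nat.sub_zero]
      rw [h0', ← h1, h0]
  · simp [h1']
  · intro i hi
    by_cases h3 : i + 1 < N
    · have h4 : i < N := by omega
      simp only [h3, h4, if_true]
      exact h2 i h4
    · by_cases h4 : i < N
      · have h5 : i + 1 = N := by omega
        simp only [h4, h3, if_true, if_false]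
        rw [h5, Nat.sub_self, h0', ← h1, ← h5]
        exact h2 i h4
      · simp only [h3, h4, if_false]
        have h6 : i + 1 - N = (i - N) + 1 := by omega
        rw [h6]
        exact h2' _ (by omega)

theorem Chain.symm {N : ℕ} {x y : X} (hR : ∀ a b, R a b → R b a) (h : Chain R N x y) :
    Chain R N y x := by
  obtain ⟨c, h0, h1, h2⟩ := h
  refine ⟨fun i => c (N - i), by simpa using h1, by simpa using h0, fun i hi => ?_⟩
  have h3 : N - i = (N - (i + 1)) + 1 := by omega
  show R (c (N - i)) (c (N - (i + 1)))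
  rw [h3]
  exact hR _ _ (h2 _ (by omega))

theorem Chain.flatten {N m : ℕ} {x y : X} (f : X → X)
    (hR : ∀ a b, R a b → Chain R' m (f a) (f b)) (h : Chain R N x y) :
    Chain R' (m * N) (f x) (f y) := by
  obtain ⟨c, h0, h1, h2⟩ := h
  have : ∀ i ≤ N, Chain R' (m * i) (f x) (f (c i)) := by
    intro i
    induction i with
    | zero =>
      intro _
      rw [h0]
      exact Chain.refl _
    | succ i ih =>
      intro hi
      have h3 := (ih (by omega)).trans (hR _ _ (h2 i (by omega)))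
      rwa [← Nat.mul_succ] at h3
  have h4 := this N le_rfl
  rwa [h1] at h4

theorem Chain.map {N : ℕ} {x y : X} (f : X → X)
    (hR : ∀ a b, R a b → R' (f a) (f b)) (h : Chain R N x y) :
    Chain R' N (f x) (f y) := by
  obtain ⟨c, h0, h1, h2⟩ := h
  exact ⟨fun i => f (c i), congrArg f h0, congrArg f h1, fun i hi => hR _ _ (h2 i hi)⟩

end chain

namespace HypSys

variable {X E : Type*} [MetricSpace X] [NormedAddCommGroup E] [NormedSpace ℝ E]

theorem iter_symm_iter (S : HypSys X E) (n : ℕ) (x : X) : S.g.symm^[n] (S.g^[n] x) = x := by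
  induction n generalizing x with
  | zero => rfl
  | succ n ih =>
    rw [Function.iterate_succ_apply' S.g, Function.iterate_succ_apply S.g.symm,
      Homeomorph.symm_apply_apply]
    exact ih x

theorem iter_iter_symm (S : HypSys X E) (n : ℕ) (x : X) : S.g^[n] (S.g.symm^[n] x) = x :=
  S.symm.iter_symm_iter n x

theorem iter_iter_symm_le (S : HypSys X E) (n k : ℕ) (h : k ≤ n) (x : X) :
    S.g^[n] (S.g.symm^[k] x) = S.g^[n - k] x := by
  obtain ⟨j, rfl⟩ := Nat.exists_eq_add_of_le' h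
  rw [Function.iterate_add_apply, iter_iter_symm, Nat.add_sub_cancel]

theorem iter_symm_iter_le (S : HypSys X E) (n k : ℕ) (h : k ≤ n) (x : X) :
    S.g^[k] (S.g.symm^[n] x) = S.g.symm^[n - k] x := by
  obtain ⟨j, rfl⟩ := Nat.exists_eq_add_of_le h
  rw [Function.iterate_add_apply, iter_iter_symm, Nat.add_sub_cancel_left]

theorem chain_pull (S : HypSys X E) (δ : ℝ) (m : ℕ)
    (hsub : ∀ x y : X, S.SRel δ x y → Chain (S.SRel δ) m (S.g.symm x) (S.g.symm y))
    (k N : ℕ) (x y : X) (h : Chain (S.SRel δ) N x y) :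
    Chain (S.SRel δ) (m ^ k * N) (S.g.symm^[k] x) (S.g.symm^[k] y) := by
  induction k with
  | zero => simpa using h
  | succ k ih =>
    rw [Function.iterate_succ_apply', Function.iterate_succ_apply', pow_succ', mul_assoc]
    exact ih.flatten S.g.symm hsub

/-- The constants and properties collected for the pinching argument. -/
structure Setup (S : HypSys X E) where
  δ : ℝ
  α : ℝ
  β : ℝ
  εs : ℝ
  ms : ℕ
  mu : ℕ
  δ_pos : 0 < δ
  α_pos : 0 ≤ α
  β_pos : 0 ≤ β
  α_le : α ≤ 1 / 2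
  β_le : β ≤ 1 / 2
  hδ : (36 * S.K + 2) * δ ≤ εs
  contrS : ∀ x y : X, S.SRel εs x y → ∀ k : ℕ,
    dist (S.g^[k] x) (S.g^[k] y) ≤ α ^ k * dist x y
  contrU : ∀ x y : X, S.URel εs x y → ∀ k : ℕ,
    dist (S.g.symm^[k] x) (S.g.symm^[k] y) ≤ β ^ k * dist x y
  lp : ∀ x y : X, dist x y ≤ 2 * δ →
    ∃ z, S.SRel (9 * S.K * dist x y) x z ∧ S.URel (9 * S.K * dist x y) z y
  subS : ∀ x y : X, S.SRel δ x y → Chain (S.SRel δ) ms (S.g.symm x) (S.g.symm y)
  subU : ∀ x y : X, S.URel δ x y → Chain (S.URel δ) mu (S.g x) (S.g y)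
  growth : ∀ N J : ℕ, ∃ k n : ℕ, 1 ≤ k ∧ k ≤ n ∧ 2 * ((ms : ℝ) ^ k * N) * α ^ n ≤ 1 ∧
    36 * S.K * β ^ n * ((mu : ℝ) ^ (n - k) * J) ≤ 1

/-- One push of a stable chain by an unstable displacement of its base point. -/
theorem push (S : HypSys X E) (T : S.Setup) (n N : ℕ) (hn : 2 * (N : ℝ) * T.α ^ n ≤ 1)
    (ρ : ℝ) (hρ : ρ ≤ 2 * T.δ) (hρ0 : 0 ≤ ρ) (p : ℕ → X) (hp : ∀ i < N, S.SRel ρ (p i) (p (i + 1)))
    (B : X) (hB : S.URel T.δ (S.g^[n] (p 0)) B) :
    ∃ p' : ℕ → X, S.g^[n] (p' 0) = B ∧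
      (∀ i < N, S.SRel (ρ + 36 * S.K * T.β ^ n * T.δ) (p' i) (p' (i + 1))) ∧
      (∀ i ≤ N, S.URel (18 * S.K * T.β ^ n * T.δ) (p i) (p' i)) := by
  have hK := S.one_le_K
  have hK0 : 0 < S.K := by linarith
  have hδ0 := T.δ_pos
  have hα0 := T.α_pos
  have hβ0 := T.β_pos
  have hβ1 : T.β ≤ 1 := by linarith [T.β_le]
  have hα1 : T.α ≤ 1 := by linarith [T.α_le]
  have hKδ : T.δ ≤ S.K * T.δ := by nlinarith
  have hε : 36 * (S.K * T.δ) + 2 * T.δ ≤ T.εs := by
    have := T.hδ
    linarith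
  -- closeness at time n
  have hA : ∀ i ≤ N, dist (S.g^[n] (p 0)) (S.g^[n] (p i)) ≤ i * (T.α ^ n * (2 * T.δ)) := by
    intro i
    induction i with
    | zero => intro _; simp
    | succ i ih =>
      intro hi
      have h1 := ih (by omega)
      have h2 : S.SRel T.εs (p i) (p (i + 1)) := (hp i (by omega)).mono (by linarith)
      have h3 := T.contrS _ _ h2 n
      have h4 : dist (p i) (p (i + 1)) ≤ 2 * T.δ := ((hp i (by omega)).dist_le).trans hρ
      have h5 : T.α ^ n * dist (p i) (p (i + 1)) ≤ T.α ^ n * (2 * T.δ) :=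
        mul_le_mul_of_nonneg_left h4 (by positivity)
      have h6 := dist_triangle (S.g^[n] (p 0)) (S.g^[n] (p i)) (S.g^[n] (p (i + 1)))
      push_cast
      linarith
  have hA' : ∀ i ≤ N, dist (S.g^[n] (p 0)) (S.g^[n] (p i)) ≤ T.δ := by
    intro i hi
    refine (hA i hi).trans ?_
    have h1 : (i : ℝ) ≤ N := by exact_mod_cast hi
    have h2 : (i : ℝ) * (T.α ^ n * (2 * T.δ)) ≤ N * (T.α ^ n * (2 * T.δ)) :=
      mul_le_mul_of_nonneg_right h1 (by positivity)
    have h3 : (N : ℝ) * (T.α ^ n * (2 * T.δ)) = (2 * N * T.α ^ n) * T.δ := by ring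
    have h4 : (2 * N * T.α ^ n) * T.δ ≤ 1 * T.δ := mul_le_mul_of_nonneg_right hn hδ0.le
    linarith
  have hW : ∀ i : ℕ, ∃ w : X, (i = 0 → w = B) ∧ (i ≤ N → S.SRel (18 * (S.K * T.δ)) B w ∧
      S.URel (18 * (S.K * T.δ)) (S.g^[n] (p i)) w) := by
    intro i
    by_cases hi0 : i = 0
    · subst hi0
      refine ⟨B, fun _ => rfl, fun _ => ⟨fun k => ?_, hB.mono (by linarith)⟩⟩
      rw [dist_self]; positivity
    by_cases hi : i ≤ N
    · have h1 : dist B (S.g^[n] (p i)) ≤ 2 * T.δ := by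
        have h2 := hA' i hi
        have h3 := hB.dist_le
        have h4 := dist_triangle B (S.g^[n] (p 0)) (S.g^[n] (p i))
        rw [dist_comm B (S.g^[n] (p 0))] at h4
        linarith
      obtain ⟨w, hw1, hw2⟩ := T.lp _ _ h1
      have h5 : 9 * S.K * dist B (S.g^[n] (p i)) ≤ 18 * (S.K * T.δ) := by
        have : 9 * S.K * dist B (S.g^[n] (p i)) ≤ 9 * S.K * (2 * T.δ) :=
          mul_le_mul_of_nonneg_left h1 (by positivity)
        linarith
      exact ⟨w, fun h => absurd h hi0, fun _ => ⟨hw1.mono h5, (hw2.mono h5).symm⟩⟩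
    · exact ⟨B, fun h => absurd h hi0, fun h => absurd h hi⟩
  choose w hw0 hw using hW
  refine ⟨fun i => S.g.symm^[n] (w i), ?_, ?_, ?_⟩
  · show S.g^[n] (S.g.symm^[n] (w 0)) = B
    rw [iter_iter_symm, hw0 0 rfl]
  · intro i hi
    obtain ⟨s1, u1⟩ := hw i hi.le
    obtain ⟨s2, u2⟩ := hw (i + 1) hi
    -- backward closeness to the unperturbed chain
    have hback : ∀ l : ℕ, l ≤ N → ∀ j : ℕ, dist (S.g.symm^[j] (S.g^[n] (p l)))
        (S.g.symm^[j] (w l)) ≤ T.β ^ j * (18 * (S.K * T.δ)) := by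
      intro l hl j
      have h1 := (hw l hl).2
      have h2 := T.contrU _ _ (h1.mono (by linarith)) j
      exact h2.trans (mul_le_mul_of_nonneg_left h1.dist_le (by positivity))
    have hclose : S.SRel T.εs (S.g.symm^[n] (w i)) (S.g.symm^[n] (w (i + 1))) := by
      intro k
      by_cases hk : k ≤ n
      · rw [S.iter_symm_iter_le _ _ hk, S.iter_symm_iter_le _ _ hk]
        have e1 : S.g.symm^[n - k] (S.g^[n] (p i)) = S.g^[k] (p i) := by
          have := S.symm.iter_symm_iter_le n (n - k) (by omega) (p i)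
          have h3 : n - (n - k) = k := by omega
          rw [h3] at this
          exact this
        have e2 : S.g.symm^[n - k] (S.g^[n] (p (i + 1))) = S.g^[k] (p (i + 1)) := by
          have := S.symm.iter_symm_iter_le n (n - k) (by omega) (p (i + 1))
          have h3 : n - (n - k) = k := by omega
          rw [h3] at this
          exact this
        have h1 := hback i hi.le (n - k)
        have h2 := hback (i + 1) hi (n - k)
        rw [e1] at h1
        rw [e2] at h2
        have h3 : dist (S.g^[k] (p i)) (S.g^[k] (p (i + 1))) ≤ ρ := hp i hi k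
        have h4 : T.β ^ (n - k) * (18 * (S.K * T.δ)) ≤ 1 * (18 * (S.K * T.δ)) :=
          mul_le_mul_of_nonneg_right (pow_le_one₀ hβ0 hβ1) (by positivity)
        have h5 := dist_triangle4 (S.g.symm^[n - k] (w i)) (S.g^[k] (p i)) (S.g^[k] (p (i + 1)))
          (S.g.symm^[n - k] (w (i + 1)))
        rw [dist_comm (S.g.symm^[n - k] (w i)) (S.g^[k] (p i))] at h5
        linarith
      · push Not at hk
        have e1 : ∀ z : X, S.g^[k] (S.g.symm^[n] z) = S.g^[k - n] z := fun z =>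
          S.iter_iter_symm_le k n hk.le z
        rw [e1, e1]
        have h1 := (s1.symm.trans s2) (k - n)
        linarith
    have h0 : dist (S.g.symm^[n] (w i)) (S.g.symm^[n] (w (i + 1))) ≤
        ρ + 36 * S.K * T.β ^ n * T.δ := by
      have h1 := hback i hi.le n
      have h2 := hback (i + 1) hi n
      rw [iter_symm_iter] at h1 h2
      have h3 := (hp i hi).dist_le
      have h5 := dist_triangle4 (S.g.symm^[n] (w i)) (p i) (p (i + 1))
          (S.g.symm^[n] (w (i + 1)))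
      rw [dist_comm (S.g.symm^[n] (w i)) (p i)] at h5
      linarith
    intro k
    refine (T.contrS _ _ hclose k).trans ?_
    calc T.α ^ k * dist (S.g.symm^[n] (w i)) (S.g.symm^[n] (w (i + 1)))
        ≤ 1 * dist (S.g.symm^[n] (w i)) (S.g.symm^[n] (w (i + 1))) :=
          mul_le_mul_of_nonneg_right (pow_le_one₀ hα0 hα1) dist_nonneg
      _ ≤ _ := by rw [one_mul]; exact h0
  · intro i hi k
    have h1 := (hw i hi).2
    have h2 := T.contrU _ _ (h1.mono (by linarith)) (k + n)
    rw [Function.iterate_add_apply, Function.iterate_add_apply, iter_symm_iter] at h2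
    refine h2.trans ?_
    have h3 : T.β ^ (k + n) ≤ T.β ^ n := pow_le_pow_of_le_one hβ0 hβ1 (by omega)
    calc T.β ^ (k + n) * dist (S.g^[n] (p i)) (w i) ≤ T.β ^ n * (18 * (S.K * T.δ)) :=
          mul_le_mul h3 h1.dist_le dist_nonneg (by positivity)
      _ = _ := by ring

/-- Moving a stable chain along a whole unstable chain of its base (at time `n`). -/
theorem stage (S : HypSys X E) (T : S.Setup) (n N j : ℕ) (hn : 2 * (N : ℝ) * T.α ^ n ≤ 1)
    (hj : 36 * S.K * T.β ^ n * j ≤ 1) (p : ℕ → X) (hp : ∀ i < N, S.SRel T.δ (p i) (p (i + 1)))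
    (y : ℕ → X) (hy0 : y 0 = S.g^[n] (p 0)) (hy : ∀ l < j, S.URel T.δ (y l) (y (l + 1))) :
    ∀ l ≤ j, ∃ p' : ℕ → X, S.g^[n] (p' 0) = y l ∧
      (∀ i < N, S.SRel (T.δ + l * (36 * S.K * T.β ^ n * T.δ)) (p' i) (p' (i + 1))) ∧
      Chain (S.URel T.δ) l (p N) (p' N) := by
  have hK := S.one_le_K
  have hK0 : 0 < S.K := by linarith
  have hδ0 := T.δ_pos
  have hβ0 := T.β_pos
  have hq0 : 0 ≤ 36 * S.K * T.β ^ n := by positivity
  intro l
  induction l with
  | zero =>
    intro _
    refine ⟨p, hy0.symm, ?_, Chain.refl _⟩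
    simpa using hp
  | succ l ih =>
    intro hl
    obtain ⟨p', h1, h2, h3⟩ := ih (by omega)
    have hl' : ((l : ℝ) + 1) * (36 * S.K * T.β ^ n) ≤ 1 := by
      have : ((l : ℝ) + 1) ≤ j := by exact_mod_cast hl
      have := mul_le_mul_of_nonneg_right this hq0
      linarith
    have h4 : (l : ℝ) * (36 * S.K * T.β ^ n * T.δ) ≤ T.δ := by
      have h5 : (l : ℝ) * (36 * S.K * T.β ^ n) ≤ 1 := by linarith
      have := mul_le_mul_of_nonneg_right h5 hδ0.le
      linarith
    have hB : S.URel T.δ (S.g^[n] (p' 0)) (y (l + 1)) := by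
      rw [h1]; exact hy l (by omega)
    obtain ⟨p'', h6, h7, h8⟩ := S.push T n N hn _ (by linarith) (by positivity) p' h2 _ hB
    refine ⟨p'', h6, ?_, ?_⟩
    · intro i hi
      have := h7 i hi
      refine this.mono (le_of_eq ?_)
      push_cast
      ring
    · refine h3.trans (Chain.single ((h8 N le_rfl).mono ?_))
      have h9 : 36 * S.K * T.β ^ n ≤ 1 := by
        have h10 : 0 ≤ (l : ℝ) * (36 * S.K * T.β ^ n) := by positivity
        linarith
      have := mul_le_mul_of_nonneg_right h9 hδ0.le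
      linarith

/-- Connectedness by stable / unstable chains. -/
def SConn (S : HypSys X E) (δ : ℝ) (x y : X) : Prop := ∃ N, Chain (S.SRel δ) N x y

def UConn (S : HypSys X E) (δ : ℝ) (x y : X) : Prop := ∃ N, Chain (S.URel δ) N x y

theorem SConn.trans {S : HypSys X E} {δ : ℝ} {x y z : X} (h : S.SConn δ x y)
    (h' : S.SConn δ y z) : S.SConn δ x z := by
  obtain ⟨N, h⟩ := h
  obtain ⟨M, h'⟩ := h'
  exact ⟨N + M, h.trans h'⟩

theorem UConn.trans {S : HypSys X E} {δ : ℝ} {x y z : X} (h : S.UConn δ x y)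
    (h' : S.UConn δ y z) : S.UConn δ x z := by
  obtain ⟨N, h⟩ := h
  obtain ⟨M, h'⟩ := h'
  exact ⟨N + M, h.trans h'⟩

theorem SConn.symm {S : HypSys X E} {δ : ℝ} {x y : X} (h : S.SConn δ x y) : S.SConn δ y x := by
  obtain ⟨N, h⟩ := h
  exact ⟨N, h.symm fun _ _ h => h.symm⟩

theorem UConn.symm {S : HypSys X E} {δ : ℝ} {x y : X} (h : S.UConn δ x y) : S.UConn δ y x := by
  obtain ⟨N, h⟩ := h
  exact ⟨N, h.symm fun _ _ h => h.symm⟩

/-- The swap lemma: a stable chain and an unstable chain with the same base can be completed. -/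
theorem swap (S : HypSys X E) (T : S.Setup) (x y z : X) (hS : S.SConn T.δ x y)
    (hU : S.UConn T.δ x z) : ∃ w, S.SConn T.δ z w ∧ S.UConn T.δ y w := by
  obtain ⟨N, hN⟩ := hS
  obtain ⟨J, hJ⟩ := hU
  obtain ⟨k, n, hk1, hkn, hg1, hg2⟩ := T.growth N J
  have hK := S.one_le_K
  have hK0 : 0 < S.K := by linarith
  have hδ0 := T.δ_pos
  have hpull := S.chain_pull T.δ T.ms T.subS k N x y hN
  obtain ⟨p, hp0, hpN, hp⟩ := hpull
  have hpush := S.symm.chain_pull T.δ T.mu T.subU (n - k) J x z hJ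
  change Chain (S.URel T.δ) (T.mu ^ (n - k) * J) (S.g^[n - k] x) (S.g^[n - k] z) at hpush
  obtain ⟨q, hq0, hqJ, hq⟩ := hpush
  have hq0' : q 0 = S.g^[n] (p 0) := by
    rw [hq0, hp0, S.iter_iter_symm_le n k hkn]
  obtain ⟨p', h1, h2, h3⟩ := S.stage T n (T.ms ^ k * N) (T.mu ^ (n - k) * J)
    (by push_cast; exact hg1) (by push_cast; exact hg2) p hp q hq0' hq _ le_rfl
  refine ⟨S.g^[k] (p' (T.ms ^ k * N)), ?_, ?_⟩
  · -- stable part
    have hz : z = S.g^[k] (p' 0) := by
      rw [hqJ] at h1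
      have h4 : S.g^[n] (p' 0) = S.g^[n] (S.g.symm^[k] z) := by
        rw [h1, S.iter_iter_symm_le n k hkn]
      have h5 := S.g.injective.iterate n h4
      rw [h5, iter_iter_symm]
    refine ⟨T.ms ^ k * N, fun i => S.g^[k] (p' i), hz.symm, rfl, fun i hi => ?_⟩
    have h4 := h2 i hi
    have h5 : T.δ + ((T.mu ^ (n - k) * J : ℕ) : ℝ) * (36 * S.K * T.β ^ n * T.δ) ≤ 2 * T.δ := by
      have := mul_le_mul_of_nonneg_right hg2 hδ0.le
      push_cast
      linarith
    have h6 := h4.mono h5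
    have h7 : S.SRel T.εs (p' i) (p' (i + 1)) := h6.mono (by
      have := T.hδ
      have : 0 ≤ S.K * T.δ := by positivity
      linarith)
    intro l
    rw [← Function.iterate_add_apply, ← Function.iterate_add_apply]
    refine (T.contrS _ _ h7 (l + k)).trans ?_
    have h8 : T.α ^ (l + k) ≤ T.α ^ 1 :=
      pow_le_pow_of_le_one T.α_pos (by linarith [T.α_le]) (by omega)
    rw [pow_one] at h8
    calc T.α ^ (l + k) * dist (p' i) (p' (i + 1)) ≤ (1 / 2) * (2 * T.δ) :=
          mul_le_mul (h8.trans T.α_le) h6.dist_le dist_nonneg (by norm_num)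
      _ = T.δ := by ring
  · rw [hpN] at h3
    have h4 := S.symm.chain_pull T.δ T.mu T.subU k _ _ _ h3
    change Chain (S.URel T.δ) _ (S.g^[k] (S.g.symm^[k] y)) (S.g^[k] (p' (T.ms ^ k * N))) at h4
    rw [iter_iter_symm] at h4
    exact ⟨_, h4⟩

end HypSys

end Pool.Agent.H721R2
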