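import Mathlib

set_option autoImplicit false

namespace Pool.Agent.H721R2

/-- Abstract uniformly hyperbolic system on a metric space `X` isometrically embedded (by `e`)
in a normed space `E`.  `Vs x`, `Vu x` play the role of the (embedded) stable and unstable spaces,
`D x` that of the derivative of `g` at `x`, `D' x` that of the derivative of `g⁻¹` at `x`. -/
structure HypSys (X E : Type*) [MetricSpace X] [NormedAddCommGroup E] [NormedSpace ℝ E] where
  e : X → E
  isom : ∀ x y, dist x y = ‖e x - e y‖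
  g : X ≃ₜ X
  Vs : X → Submodule ℝ E
  Vu : X → Submodule ℝ E
  D : X → E →ₗ[ℝ] E
  D' : X → E →ₗ[ℝ] E
  a : ℝ
  b : ℝ
  Ls : ℝ
  Lu : ℝ
  K : ℝ
  a_nonneg : 0 ≤ a
  b_nonneg : 0 ≤ b
  one_le_Ls : 1 ≤ Ls
  one_le_Lu : 1 ≤ Lu
  one_le_K : 1 ≤ K
  Ka : K * a ≤ 1 / 16
  Kb : K * b ≤ 1 / 16
  mapS : ∀ x, ∀ v ∈ Vs x, D x v ∈ Vs (g x)
  mapU : ∀ x, ∀ v ∈ Vu x, D x v ∈ Vu (g x)
  mapS' : ∀ x, ∀ v ∈ Vs x, D' x v ∈ Vs (g.symm x)
  mapU' : ∀ x, ∀ v ∈ Vu x, D' x v ∈ Vu (g.symm x)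
  invS : ∀ x, ∀ v ∈ Vs x, D' (g x) (D x v) = v
  invU : ∀ x, ∀ v ∈ Vu x, D' (g x) (D x v) = v
  invS' : ∀ x, ∀ v ∈ Vs x, D (g.symm x) (D' x v) = v
  invU' : ∀ x, ∀ v ∈ Vu x, D (g.symm x) (D' x v) = v
  contrS : ∀ x, ∀ v ∈ Vs x, ‖D x v‖ ≤ a * ‖v‖
  contrU : ∀ x, ∀ v ∈ Vu x, ‖D' x v‖ ≤ b * ‖v‖
  boundS : ∀ x, ∀ v ∈ Vs x, ‖D' x v‖ ≤ Ls * ‖v‖
  boundU : ∀ x, ∀ v ∈ Vu x, ‖D x v‖ ≤ Lu * ‖v‖
  angle : ∀ x, ∀ s ∈ Vs x, ∀ u ∈ Vu x, ‖s‖ ≤ K * ‖s + u‖ ∧ ‖u‖ ≤ K * ‖s + u‖
  A1 : ∀ η > 0, ∃ r > 0, ∀ x y, dist x y < r → ∃ s ∈ Vs x, ∃ u ∈ Vu x,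
    ‖e y - e x - (s + u)‖ ≤ η * dist x y ∧
    ‖e (g y) - e (g x) - D x (s + u)‖ ≤ η * dist x y
  A1' : ∀ η > 0, ∃ r > 0, ∀ x y, dist x y < r → ∃ s ∈ Vs x, ∃ u ∈ Vu x,
    ‖e y - e x - (s + u)‖ ≤ η * dist x y ∧
    ‖e (g.symm y) - e (g.symm x) - D' x (s + u)‖ ≤ η * dist x y
  A2 : ∀ η > 0, ∃ r > 0, ∀ x, ∀ s ∈ Vs x, ∀ u ∈ Vu x, ‖s + u‖ < r →
    ∃ y, ‖e y - e x - (s + u)‖ ≤ η * ‖s + u‖
  A3 : ∀ η > 0, ∃ r > 0, ∀ x y, dist x y < r → ∀ s ∈ Vs x, ∃ s' ∈ Vs y, ‖s - s'‖ ≤ η * ‖s‖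
  A3' : ∀ η > 0, ∃ r > 0, ∀ x y, dist x y < r → ∀ u ∈ Vu x, ∃ u' ∈ Vu y, ‖u - u'‖ ≤ η * ‖u‖

namespace HypSys

variable {X E : Type*} [MetricSpace X] [NormedAddCommGroup E] [NormedSpace ℝ E]

/-- The inverse system. -/
def symm (S : HypSys X E) : HypSys X E where
  e := S.e
  isom := S.isom
  g := S.g.symm
  Vs := S.Vu
  Vu := S.Vs
  D := S.D'
  D' := S.D
  a := S.b
  b := S.a
  Ls := S.Lu
  Lu := S.Ls
  K := S.K
  a_nonneg := S.b_nonneg
  b_nonneg := S.a_nonneg
  one_le_Ls := S.one_le_Lu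
  one_le_Lu := S.one_le_Ls
  one_le_K := S.one_le_K
  Ka := S.Kb
  Kb := S.Ka
  mapS := S.mapU'
  mapU := S.mapS'
  mapS' := S.mapU
  mapU' := S.mapS
  invS := S.invU'
  invU := S.invS'
  invS' := S.invU
  invU' := S.invS
  contrS := S.contrU
  contrU := S.contrS
  boundS := S.boundU
  boundU := S.boundS
  angle := fun x s hs u hu => by
    have h := S.angle x u hu s hs
    rw [add_comm] at h
    exact ⟨h.2, h.1⟩
  A1 := fun η hη => by
    obtain ⟨r, hr, h⟩ := S.A1' η hη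
    refine ⟨r, hr, fun x y hxy => ?_⟩
    obtain ⟨s, hs, u, hu, h1, h2⟩ := h x y hxy
    exact ⟨u, hu, s, hs, by rwa [add_comm u s], by rwa [add_comm u s]⟩
  A1' := fun η hη => by
    obtain ⟨r, hr, h⟩ := S.A1 η hη
    refine ⟨r, hr, fun x y hxy => ?_⟩
    obtain ⟨s, hs, u, hu, h1, h2⟩ := h x y hxy
    exact ⟨u, hu, s, hs, by rwa [add_comm u s], by rwa [add_comm u s]⟩
  A2 := fun η hη => by
    obtain ⟨r, hr, h⟩ := S.A2 η hη
    refine ⟨r, hr, fun x s hs u hu hsu => ?_⟩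
    rw [add_comm] at hsu ⊢
    exact h x u hu s hs hsu
  A3 := S.A3'
  A3' := S.A3

/-- One Newton-like correction step for pseudo-orbits. -/
theorem correction (S : HypSys X E) : ∃ ε₀ > 0, ∀ ε ≤ ε₀, ∀ x : ℤ → X,
    (∀ n, dist (S.g (x n)) (x (n + 1)) ≤ ε) →
    ∃ x' : ℤ → X, (∀ n, dist (x' n) (x n) ≤ 4 * S.K * ε) ∧
      (∀ n, dist (S.g (x' n)) (x' (n + 1)) ≤ ε / 2) := by
  have hK := S.one_le_K
  have hLu := S.one_le_Lu
  set K := S.K with hKdef
  set Lu := S.Lu with hLudef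
  have hK0 : 0 < K := by linarith
  have hden : 0 < 13 * K + 9 * Lu * K ^ 2 := by positivity
  set η : ℝ := min (1 / 4) (1 / (4 * (13 * K + 9 * Lu * K ^ 2))) with hη
  have hη0 : 0 < η := by
    apply lt_min (by norm_num)
    positivity
  have hη4 : η ≤ 1 / 4 := min_le_left _ _
  have hη5 : η * (13 * K + 9 * Lu * K ^ 2) ≤ 1 / 4 := by
    have : η ≤ 1 / (4 * (13 * K + 9 * Lu * K ^ 2)) := min_le_right _ _
    rw [le_div_iff₀ (by positivity)] at this
    linarith
  obtain ⟨r1, hr1, A1⟩ := S.A1 η hη0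
  obtain ⟨r2, hr2, A2⟩ := S.A2 η hη0
  obtain ⟨r3, hr3, A3⟩ := S.A3 η hη0
  set r := min r1 (min r2 r3) with hr
  have hr0 : 0 < r := lt_min hr1 (lt_min hr2 hr3)
  refine ⟨r / (8 * K), by positivity, fun ε hε x hx => ?_⟩
  have hε0 : 0 ≤ ε := le_trans dist_nonneg (hx 0)
  have h8 : 8 * K * ε ≤ r := by
    rw [le_div_iff₀ (by positivity)] at hε
    linarith
  have hrr1 : r ≤ r1 := min_le_left _ _
  have hrr2 : r ≤ r2 := le_trans (min_le_right _ _) (min_le_left _ _)
  have hrr3 : r ≤ r3 := le_trans (min_le_right _ _) (min_le_right _ _)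
  have hKε : ε ≤ K * ε := by nlinarith
  -- decomposition of the error
  have step1 : ∀ n : ℤ, ∃ s ∈ S.Vs (S.g (x n)), ∃ u ∈ S.Vu (S.g (x n)),
      ‖S.e (x (n + 1)) - S.e (S.g (x n)) - (s + u)‖ ≤ η * ε := by
    intro n
    have hlt : dist (S.g (x n)) (x (n + 1)) < r1 := by
      have := hx n
      have : ε < r1 := by
        by_cases h : ε = 0
        · rw [h]; exact hr1
        · have : 0 < ε := lt_of_le_of_ne hε0 (Ne.symm h)
          nlinarith
      linarith [hx n]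
    obtain ⟨s, hs, u, hu, h1, -⟩ := A1 _ _ hlt
    exact ⟨s, hs, u, hu, h1.trans (mul_le_mul_of_nonneg_left (hx n) hη0.le)⟩
  choose as has au hau hasau using step1
  have nas : ∀ n, ‖as n + au n‖ ≤ 5 / 4 * ε := by
    intro n
    have h1 := hasau n
    have h2 : ‖S.e (x (n + 1)) - S.e (S.g (x n))‖ ≤ ε := by
      rw [← S.isom, dist_comm]; exact hx n
    have h3 : ‖as n + au n‖ ≤ ‖S.e (x (n + 1)) - S.e (S.g (x n))‖ +
        ‖S.e (x (n + 1)) - S.e (S.g (x n)) - (as n + au n)‖ := by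
      have := norm_sub_le (S.e (x (n + 1)) - S.e (S.g (x n)))
        (S.e (x (n + 1)) - S.e (S.g (x n)) - (as n + au n))
      rwa [sub_sub_cancel] at this
    nlinarith
  have nas1 : ∀ n, ‖as n‖ ≤ 5 / 4 * (K * ε) := by
    intro n
    have := (S.angle _ _ (has n) _ (hau n)).1
    have h2 := nas n
    calc ‖as n‖ ≤ K * ‖as n + au n‖ := this
      _ ≤ K * (5 / 4 * ε) := mul_le_mul_of_nonneg_left h2 hK0.le
      _ = _ := by ring
  have nau1 : ∀ n, ‖au n‖ ≤ 5 / 4 * (K * ε) := by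
    intro n
    have := (S.angle _ _ (has n) _ (hau n)).2
    have h2 := nas n
    calc ‖au n‖ ≤ K * ‖as n + au n‖ := this
      _ ≤ K * (5 / 4 * ε) := mul_le_mul_of_nonneg_left h2 hK0.le
      _ = _ := by ring
  -- stable corrections
  have step2 : ∀ n : ℤ, ∃ v ∈ S.Vs (x n), ‖v + as (n - 1)‖ ≤ η * (5 / 4 * (K * ε)) := by
    intro n
    have hlt : dist (S.g (x (n - 1))) (x n) < r3 := by
      have h0 := hx (n - 1)
      rw [sub_add_cancel] at h0
      have : ε < r3 := by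
        by_cases h : ε = 0
        · rw [h]; exact hr3
        · have : 0 < ε := lt_of_le_of_ne hε0 (Ne.symm h)
          nlinarith
      linarith
    obtain ⟨s', hs', h1⟩ := A3 _ _ hlt _ (has (n - 1))
    refine ⟨-s', Submodule.neg_mem _ hs', ?_⟩
    have : -s' + as (n - 1) = as (n - 1) - s' := by abel
    rw [this]
    exact h1.trans (mul_le_mul_of_nonneg_left (nas1 _) hη0.le)
  choose vs hvs hvs1 using step2
  have nvs : ∀ n, ‖vs n‖ ≤ 2 * (K * ε) := by
    intro n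
    have h1 := hvs1 n
    have h2 := nas1 (n - 1)
    have h3 : ‖vs n‖ ≤ ‖vs n + as (n - 1)‖ + ‖as (n - 1)‖ := by
      have := norm_sub_le (vs n + as (n - 1)) (as (n - 1))
      rwa [add_sub_cancel_right] at this
    nlinarith [mul_nonneg hK0.le hε0]
  -- unstable corrections
  let vu : ℤ → E := fun n => S.D' (S.g (x n)) (au n)
  have hvu : ∀ n, vu n ∈ S.Vu (x n) := by
    intro n
    have := S.mapU' _ _ (hau n)
    rwa [Homeomorph.symm_apply_apply] at this
  have hDvu : ∀ n, S.D (x n) (vu n) = au n := by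
    intro n
    have := S.invU' _ _ (hau n)
    rwa [Homeomorph.symm_apply_apply] at this
  have nvu : ∀ n, ‖vu n‖ ≤ 5 / 64 * ε := by
    intro n
    have h1 := S.contrU _ _ (hau n)
    have h2 := nau1 n
    have hb := S.b_nonneg
    have h3 : S.b * ‖au n‖ ≤ S.b * (5 / 4 * (K * ε)) := mul_le_mul_of_nonneg_left h2 hb
    have h4 : S.b * (5 / 4 * (K * ε)) = 5 / 4 * (K * S.b) * ε := by ring
    have h5 := S.Kb
    have h6 : K * S.b * ε ≤ 1 / 16 * ε := mul_le_mul_of_nonneg_right h5 hε0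
    nlinarith
  have nv : ∀ n, ‖vs n + vu n‖ ≤ 3 * (K * ε) := by
    intro n
    have := norm_add_le (vs n) (vu n)
    have h1 := nvs n
    have h2 := nvu n
    linarith
  -- the new points
  have step3 : ∀ n : ℤ, ∃ y, ‖S.e y - S.e (x n) - (vs n + vu n)‖ ≤ η * ‖vs n + vu n‖ := by
    intro n
    by_cases h : ε = 0
    · refine ⟨x n, ?_⟩
      have h1 : ‖vs n + vu n‖ ≤ 0 := by simpa [h] using nv n
      have h2 : vs n + vu n = 0 := norm_le_zero_iff.mp h1
      simp [h2]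
    · have : 0 < ε := lt_of_le_of_ne hε0 (Ne.symm h)
      have : 0 < K * ε := by positivity
      exact A2 _ _ (hvs n) _ (hvu n) (lt_of_le_of_lt (nv n) (by linarith))
  choose x' hx' using step3
  have dx' : ∀ n, dist (x n) (x' n) ≤ 5 / 4 * ‖vs n + vu n‖ := by
    intro n
    rw [dist_comm, S.isom]
    have h1 := hx' n
    have h3 : ‖S.e (x' n) - S.e (x n)‖ ≤ ‖S.e (x' n) - S.e (x n) - (vs n + vu n)‖ +
        ‖vs n + vu n‖ := by
      have := norm_add_le (S.e (x' n) - S.e (x n) - (vs n + vu n)) (vs n + vu n)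
      rwa [sub_add_cancel] at this
    nlinarith [norm_nonneg (vs n + vu n)]
  refine ⟨x', fun n => ?_, fun n => ?_⟩
  · rw [dist_comm]
    have := dx' n
    have := nv n
    linarith
  · -- error estimate
    rcases eq_or_lt_of_le hε0 with h | hεpos
    · -- ε = 0
      have hz : ∀ m, x' m = x m := by
        intro m
        have h1 := dx' m
        have h2 := nv m
        rw [← h] at h2
        have : dist (x m) (x' m) ≤ 0 := by linarith
        exact (dist_le_zero.mp this).symm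
      rw [hz, hz]
      have := hx n
      rw [← h] at this ⊢
      linarith
    · have hKε0 : 0 < K * ε := by positivity
      have hlt : dist (x n) (x' n) < r1 := by
        have h1 := dx' n
        have h2 := nv n
        linarith
      obtain ⟨s, hs, u, hu, h1, h2⟩ := A1 _ _ hlt
      have hR := dx' n
      set V := ‖vs n + vu n‖ with hV
      have hV0 : 0 ≤ V := norm_nonneg _
      have hVle : V ≤ 3 * (K * ε) := nv n
      -- difference of decompositions
      have hd : ‖(s - vs n) + (u - vu n)‖ ≤ 3 * η * V := by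
        have e1 : (s - vs n) + (u - vu n) =
            (S.e (x' n) - S.e (x n) - (vs n + vu n)) - (S.e (x' n) - S.e (x n) - (s + u)) := by
          abel
        rw [e1]
        have := norm_sub_le (S.e (x' n) - S.e (x n) - (vs n + vu n))
          (S.e (x' n) - S.e (x n) - (s + u))
        have h3 := hx' n
        nlinarith
      have ang := S.angle _ _ (Submodule.sub_mem _ hs (hvs n)) _ (Submodule.sub_mem _ hu (hvu n))
      have hds : ‖s - vs n‖ ≤ K * (3 * η * V) :=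
        ang.1.trans (mul_le_mul_of_nonneg_left hd hK0.le)
      have hdu : ‖u - vu n‖ ≤ K * (3 * η * V) :=
        ang.2.trans (mul_le_mul_of_nonneg_left hd hK0.le)
      have hDs : ‖S.D (x n) (s - vs n)‖ ≤ η * V := by
        have h3 := S.contrS _ _ (Submodule.sub_mem _ hs (hvs n))
        have h4 : S.a * ‖s - vs n‖ ≤ S.a * (K * (3 * η * V)) :=
          mul_le_mul_of_nonneg_left hds S.a_nonneg
        have h5 : S.a * (K * (3 * η * V)) = (K * S.a) * (3 * η * V) := by ring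
        have h6 : (K * S.a) * (3 * η * V) ≤ 1 / 16 * (3 * η * V) :=
          mul_le_mul_of_nonneg_right S.Ka (by positivity)
        nlinarith [mul_nonneg hη0.le hV0]
      have hDu : ‖S.D (x n) (u - vu n)‖ ≤ Lu * (K * (3 * η * V)) := by
        have h3 := S.boundU _ _ (Submodule.sub_mem _ hu (hvu n))
        exact h3.trans (mul_le_mul_of_nonneg_left hdu (by linarith))
      have hDvs : ‖S.D (x n) (vs n)‖ ≤ 1 / 8 * ε := by
        have h3 := S.contrS _ _ (hvs n)
        have h4 : S.a * ‖vs n‖ ≤ S.a * (2 * (K * ε)) :=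
          mul_le_mul_of_nonneg_left (nvs n) S.a_nonneg
        have h5 : S.a * (2 * (K * ε)) = (K * S.a) * (2 * ε) := by ring
        have h6 : (K * S.a) * (2 * ε) ≤ 1 / 16 * (2 * ε) :=
          mul_le_mul_of_nonneg_right S.Ka (by positivity)
        linarith
      have key : S.e (x' (n + 1)) - S.e (S.g (x' n)) =
          (S.e (x' (n + 1)) - S.e (x (n + 1)) - (vs (n + 1) + vu (n + 1)))
          + (S.e (x (n + 1)) - S.e (S.g (x n)) - (as n + au n))
          - (S.e (S.g (x' n)) - S.e (S.g (x n)) - S.D (x n) (s + u))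
          + (vs (n + 1) + as n) + vu (n + 1) - S.D (x n) (vs n)
          - S.D (x n) (s - vs n) - S.D (x n) (u - vu n) := by
        rw [map_add, map_sub, map_sub, hDvu]
        abel
      rw [dist_comm, S.isom, key]
      have t1 := hx' (n + 1)
      have t2 := hasau n
      have t3 := hvs1 (n + 1)
      rw [add_sub_cancel_right] at t3
      have t4 := nvu (n + 1)
      have t5 := nv (n + 1)
      have t1' : ‖S.e (x' (n + 1)) - S.e (x (n + 1)) - (vs (n + 1) + vu (n + 1))‖ ≤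
          η * (3 * (K * ε)) := t1.trans (mul_le_mul_of_nonneg_left t5 hη0.le)
      have t6 : η * dist (x n) (x' n) ≤ η * (5 / 4 * V) := mul_le_mul_of_nonneg_left hR hη0.le
      have t7 : η * V ≤ η * (3 * (K * ε)) := mul_le_mul_of_nonneg_left hVle hη0.le
      have t8 : Lu * (K * (3 * η * V)) ≤ Lu * (K * (3 * η * (3 * (K * ε)))) := by
        apply mul_le_mul_of_nonneg_left _ (by linarith)
        apply mul_le_mul_of_nonneg_left _ hK0.le
        exact mul_le_mul_of_nonneg_left hVle (by positivity)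
      have t9 : η * (13 * K + 9 * Lu * K ^ 2) * ε ≤ 1 / 4 * ε :=
        mul_le_mul_of_nonneg_right hη5 hε0
      have t10 : η * ε ≤ η * (K * ε) := mul_le_mul_of_nonneg_left hKε hη0.le
      have t11 : Lu * (K * (3 * η * (3 * (K * ε)))) = 9 * (Lu * (K * (η * (K * ε)))) := by ring
      have t12 : η * (13 * K + 9 * Lu * K ^ 2) * ε =
          13 * (η * (K * ε)) + 9 * (Lu * (K * (η * (K * ε)))) := by ring
      have t13 : η * (3 * (K * ε)) = 3 * (η * (K * ε)) := by ring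
      have t14 : η * (5 / 4 * V) = 5 / 4 * (η * V) := by ring
      have t15 : η * (5 / 4 * (K * ε)) = 5 / 4 * (η * (K * ε)) := by ring
      have t16 : 0 ≤ η * (K * ε) := by positivity
      rw [t12] at t9
      rw [t11] at t8
      rw [t13] at t1' t7
      rw [t14] at t6
      rw [t15] at t3
      calc _ ≤ ‖S.e (x' (n + 1)) - S.e (x (n + 1)) - (vs (n + 1) + vu (n + 1))‖
          + ‖S.e (x (n + 1)) - S.e (S.g (x n)) - (as n + au n)‖
          + ‖S.e (S.g (x' n)) - S.e (S.g (x n)) - S.D (x n) (s + u)‖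
          + ‖vs (n + 1) + as n‖ + ‖vu (n + 1)‖ + ‖S.D (x n) (vs n)‖
          + ‖S.D (x n) (s - vs n)‖ + ‖S.D (x n) (u - vu n)‖ := by
            refine (norm_sub_le _ _).trans (add_le_add_left ?_ _)
            refine (norm_sub_le _ _).trans (add_le_add_left ?_ _)
            refine (norm_sub_le _ _).trans (add_le_add_left ?_ _)
            refine (norm_add_le _ _).trans (add_le_add_left ?_ _)
            refine (norm_add_le _ _).trans (add_le_add_left ?_ _)
            refine (norm_sub_le _ _).trans (add_le_add_left ?_ _)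
            exact norm_add_le _ _
        _ ≤ ε / 2 := by linarith

end HypSys

end Pool.Agent.H721R2
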