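import Mathlib

set_option autoImplicit false

open scoped Manifold ContDiff Topology
open Set Filter

namespace Pool.Agent.H721R2

section chart

variable {E₀ : Type*} [NormedAddCommGroup E₀] [NormedSpace ℝ E₀]
  {M : Type*} [TopologicalSpace M] [ChartedSpace E₀ M] [IsManifold 𝓘(ℝ, E₀) 1 M]
  {F : Type*} [NormedAddCommGroup F] [NormedSpace ℝ F]

/-- the derivative of a vector-valued map on a manifold, with values in the vector space -/
noncomputable def dm (E₀ : Type*) [NormedAddCommGroup E₀] [NormedSpace ℝ E₀]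
    {M : Type*} [TopologicalSpace M] [ChartedSpace E₀ M]
    {F : Type*} [NormedAddCommGroup F] [NormedSpace ℝ F] (h : M → F) (x : M) : E₀ →L[ℝ] F :=
  mfderiv 𝓘(ℝ, E₀) 𝓘(ℝ, F) h x

/-- coordinate expression of a map -/
noncomputable def hatMap (h : M → F) (x₀ : M) : E₀ → F := h ∘ (extChartAt 𝓘(ℝ, E₀) x₀).symm

theorem hatMap_contDiffAt (h : M → F) (hh : ContMDiff 𝓘(ℝ, E₀) 𝓘(ℝ, F) 1 h) (x₀ : M) (p : E₀)
    (hp : p ∈ (extChartAt 𝓘(ℝ, E₀) x₀).target) : ContDiffAt ℝ 1 (hatMap h x₀) p := by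
  rw [← contMDiffAt_iff_contDiffAt]
  have h1 : ContMDiffOn 𝓘(ℝ, E₀) 𝓘(ℝ, E₀) 1 (extChartAt 𝓘(ℝ, E₀) x₀).symm
      (extChartAt 𝓘(ℝ, E₀) x₀).target := contMDiffOn_extChartAt_symm x₀
  have h2 : ContMDiffAt 𝓘(ℝ, E₀) 𝓘(ℝ, E₀) 1 (extChartAt 𝓘(ℝ, E₀) x₀).symm p :=
    h1.contMDiffAt ((isOpen_extChartAt_target x₀).mem_nhds hp)
  exact ContMDiffAt.comp p hh.contMDiffAt h2

theorem hatMap_mfderiv (h : M → F) (hh : ContMDiff 𝓘(ℝ, E₀) 𝓘(ℝ, F) 1 h) (x₀ x : M)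
    (hx : x ∈ (extChartAt 𝓘(ℝ, E₀) x₀).source) (v : E₀) :
    dm E₀ h x v = fderiv ℝ (hatMap h x₀) (extChartAt 𝓘(ℝ, E₀) x₀ x)
      (dm E₀ (extChartAt 𝓘(ℝ, E₀) x₀) x v) := by
  show mfderiv 𝓘(ℝ, E₀) 𝓘(ℝ, F) h x v = fderiv ℝ (hatMap h x₀) (extChartAt 𝓘(ℝ, E₀) x₀ x)
      (mfderiv 𝓘(ℝ, E₀) 𝓘(ℝ, E₀) (extChartAt 𝓘(ℝ, E₀) x₀) x v)
  have h1 : h =ᶠ[𝓝 x] (hatMap h x₀) ∘ (extChartAt 𝓘(ℝ, E₀) x₀) := by
    filter_upwards [(isOpen_extChartAt_source (I := 𝓘(ℝ, E₀)) x₀).mem_nhds hx] with y hy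
    show h y = h ((extChartAt 𝓘(ℝ, E₀) x₀).symm (extChartAt 𝓘(ℝ, E₀) x₀ y))
    rw [(extChartAt 𝓘(ℝ, E₀) x₀).left_inv hy]
  rw [h1.mfderiv_eq]
  have hp : extChartAt 𝓘(ℝ, E₀) x₀ x ∈ (extChartAt 𝓘(ℝ, E₀) x₀).target :=
    (extChartAt 𝓘(ℝ, E₀) x₀).map_source hx
  have h2 : MDifferentiableAt 𝓘(ℝ, E₀) 𝓘(ℝ, F) (hatMap h x₀) (extChartAt 𝓘(ℝ, E₀) x₀ x) :=
    ((contMDiffAt_iff_contDiffAt.mpr (hatMap_contDiffAt h hh x₀ _ hp))).mdifferentiableAt
      (by norm_num)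
  have h3 : MDifferentiableAt 𝓘(ℝ, E₀) 𝓘(ℝ, E₀) (extChartAt 𝓘(ℝ, E₀) x₀) x := by
    apply mdifferentiableAt_extChartAt
    rwa [extChartAt_source] at hx
  rw [mfderiv_comp x h2 h3, mfderiv_eq_fderiv]
  rfl

theorem hatMap_local (h : M → F) (hh : ContMDiff 𝓘(ℝ, E₀) 𝓘(ℝ, F) 1 h) (x₀ : M) (η : ℝ)
    (hη : 0 < η) : ∃ r > 0, Metric.ball (extChartAt 𝓘(ℝ, E₀) x₀ x₀) r ⊆
        (extChartAt 𝓘(ℝ, E₀) x₀).target ∧
      (∀ p ∈ Metric.ball (extChartAt 𝓘(ℝ, E₀) x₀ x₀) r,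
        ‖fderiv ℝ (hatMap h x₀) p - fderiv ℝ (hatMap h x₀) (extChartAt 𝓘(ℝ, E₀) x₀ x₀)‖ ≤ η) ∧
      (∀ p ∈ Metric.ball (extChartAt 𝓘(ℝ, E₀) x₀ x₀) r,
        ∀ q ∈ Metric.ball (extChartAt 𝓘(ℝ, E₀) x₀ x₀) r,
        ‖hatMap h x₀ q - hatMap h x₀ p - fderiv ℝ (hatMap h x₀) p (q - p)‖ ≤ η * ‖q - p‖) := by
  set p₀ := extChartAt 𝓘(ℝ, E₀) x₀ x₀ with hp₀
  have hp₀t : p₀ ∈ (extChartAt 𝓘(ℝ, E₀) x₀).target := mem_extChartAt_target x₀
  have hc := hatMap_contDiffAt h hh x₀ p₀ hp₀t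
  have hs : HasStrictFDerivAt (hatMap h x₀) (fderiv ℝ (hatMap h x₀) p₀) p₀ :=
    hc.hasStrictFDerivAt (by norm_num)
  have hcd : ContinuousAt (fderiv ℝ (hatMap h x₀)) p₀ := by
    have := hc.fderiv_right (m := 0) (by norm_num)
    exact this.continuousAt
  rw [hasStrictFDerivAt_iff_isLittleO] at hs
  have h1 := hs.def (half_pos hη)
  rw [nhds_prod_eq, Filter.Eventually, Filter.mem_prod_self_iff] at h1
  obtain ⟨t, ht, h1⟩ := h1
  have h2 : ∀ᶠ p in 𝓝 p₀, ‖fderiv ℝ (hatMap h x₀) p - fderiv ℝ (hatMap h x₀) p₀‖ ≤ η / 2 := by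
    have := Metric.continuousAt_iff'.mp hcd (η / 2) (half_pos hη)
    filter_upwards [this] with p hp
    rw [← dist_eq_norm]
    exact hp.le
  have h3 : (extChartAt 𝓘(ℝ, E₀) x₀).target ∈ 𝓝 p₀ := extChartAt_target_mem_nhds x₀
  obtain ⟨r, hr0, hr⟩ := Metric.mem_nhds_iff.mp (inter_mem (inter_mem ht h2) h3)
  refine ⟨r, hr0, fun p hp => (hr hp).2, fun p hp => ?_, fun p hp q hq => ?_⟩
  · have := (hr hp).1.2
    simp only [mem_ofPred_eq] at this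
    linarith
  · have h4 := h1 (Set.mk_mem_prod (hr hq).1.1 (hr hp).1.1)
    simp only [mem_ofPred_eq] at h4
    have h5 := (hr hp).1.2
    simp only [mem_ofPred_eq] at h5
    have e1 : hatMap h x₀ q - hatMap h x₀ p - fderiv ℝ (hatMap h x₀) p (q - p) =
        (hatMap h x₀ q - hatMap h x₀ p - fderiv ℝ (hatMap h x₀) p₀ (q - p)) -
        (fderiv ℝ (hatMap h x₀) p - fderiv ℝ (hatMap h x₀) p₀) (q - p) := by
      simp only [sub_apply]
      abel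
    rw [e1]
    have h6 := norm_sub_le (hatMap h x₀ q - hatMap h x₀ p - fderiv ℝ (hatMap h x₀) p₀ (q - p))
      ((fderiv ℝ (hatMap h x₀) p - fderiv ℝ (hatMap h x₀) p₀) (q - p))
    have h7 : ‖(fderiv ℝ (hatMap h x₀) p - fderiv ℝ (hatMap h x₀) p₀) (q - p)‖ ≤
        η / 2 * ‖q - p‖ :=
      (ContinuousLinearMap.le_opNorm _ _).trans (mul_le_mul_of_nonneg_right h5 (norm_nonneg _))
    linarith

variable [FiniteDimensional ℝ E₀]

/-- All local facts about an immersion `e` and a map `h` near a point. -/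
theorem local_all {F' : Type*} [NormedAddCommGroup F'] [NormedSpace ℝ F']
    (e : M → F) (he : ContMDiff 𝓘(ℝ, E₀) 𝓘(ℝ, F) 1 e)
    (hinj : ∀ x, Function.Injective (dm E₀ e x))
    (h : M → F') (hh : ContMDiff 𝓘(ℝ, E₀) 𝓘(ℝ, F') 1 h) (x₀ : M) :
    (∃ C > 0, ∀ᶠ x in 𝓝 x₀, ∀ v : E₀,
      ‖dm E₀ (extChartAt 𝓘(ℝ, E₀) x₀) x v‖ ≤
        C * ‖dm E₀ e x v‖ ∧
      ‖dm E₀ h x v‖ ≤
        C * ‖dm E₀ (extChartAt 𝓘(ℝ, E₀) x₀) x v‖) ∧
    ∀ η > 0, ∃ W ∈ 𝓝 x₀, ∃ r > 0,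
      (∀ x ∈ W, ∀ y ∈ W, ∃ v : E₀,
        ‖e y - e x - dm E₀ e x v‖ ≤ η * ‖e y - e x‖ ∧
        ‖h y - h x - dm E₀ h x v‖ ≤ η * ‖e y - e x‖) ∧
      (∀ x ∈ W, ∀ v : E₀, ‖dm E₀ e x v‖ < r →
        ∃ y, ‖e y - e x - dm E₀ e x v‖ ≤
          η * ‖dm E₀ e x v‖) ∧
      (∀ x ∈ W, ∀ y ∈ W, ∀ v : E₀, ∃ w : E₀,
        ‖dm E₀ e x v - dm E₀ e y w‖ ≤
          η * ‖dm E₀ e x v‖ ∧
        ‖dm E₀ h x v - dm E₀ h y w‖ ≤
          η * ‖dm E₀ e x v‖) := by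
  set φ := extChartAt 𝓘(ℝ, E₀) x₀ with hφ
  set p₀ := φ x₀ with hp₀
  set L := fderiv ℝ (hatMap e x₀) p₀ with hL
  set L' := fderiv ℝ (hatMap h x₀) p₀ with hL'
  -- injectivity of L
  have hx₀ : x₀ ∈ φ.source := mem_extChartAt_source x₀
  have hLinj : Function.Injective L := by
    obtain ⟨A, hA⟩ := isInvertible_mfderiv_extChartAt (I := 𝓘(ℝ, E₀)) hx₀
    intro a b hab
    have h1 : ∀ w : E₀, dm E₀ e x₀ (A.symm w) = L w := by
      intro w
      have h2 := hatMap_mfderiv e he x₀ x₀ hx₀ (A.symm w)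
      rw [h2, ← hφ]
      have h3 : dm E₀ φ x₀ (A.symm w) = w := by
        show mfderiv 𝓘(ℝ, E₀) 𝓘(ℝ, E₀) φ x₀ (A.symm w) = w
        rw [← hA]; exact A.apply_symm_apply w
      rw [h3]
    have h4 : A.symm a = A.symm b := by
      apply hinj x₀
      exact (h1 a).trans (hab.trans (h1 b).symm)
    exact A.symm.injective h4
  obtain ⟨K, hK0, hK⟩ := (LinearMap.injective_iff_antilipschitz (L : E₀ →ₗ[ℝ] F)).mp hLinj
  set κ : ℝ := (K : ℝ) with hκ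
  have hκ0 : 0 < κ := hK0
  have hLlow : ∀ w : E₀, ‖w‖ ≤ κ * ‖L w‖ := fun w =>
    ZeroHomClass.bound_of_antilipschitz (L : E₀ →ₗ[ℝ] F) hK w
  -- common choice of radius
  have hrad : ∀ η' > 0, η' ≤ 1 / (4 * κ) → ∃ r > 0, Metric.ball p₀ r ⊆ φ.target ∧
      (∀ p ∈ Metric.ball p₀ r, ‖fderiv ℝ (hatMap e x₀) p - L‖ ≤ η') ∧
      (∀ p ∈ Metric.ball p₀ r, ‖fderiv ℝ (hatMap h x₀) p - L'‖ ≤ η') ∧
      (∀ p ∈ Metric.ball p₀ r, ∀ w : E₀, ‖w‖ ≤ 2 * κ * ‖fderiv ℝ (hatMap e x₀) p w‖) ∧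
      (∀ p ∈ Metric.ball p₀ r, ∀ q ∈ Metric.ball p₀ r,
        ‖hatMap e x₀ q - hatMap e x₀ p - fderiv ℝ (hatMap e x₀) p (q - p)‖ ≤ η' * ‖q - p‖) ∧
      (∀ p ∈ Metric.ball p₀ r, ∀ q ∈ Metric.ball p₀ r,
        ‖hatMap h x₀ q - hatMap h x₀ p - fderiv ℝ (hatMap h x₀) p (q - p)‖ ≤ η' * ‖q - p‖) ∧
      (∀ p ∈ Metric.ball p₀ r, ∀ q ∈ Metric.ball p₀ r,
        ‖q - p‖ ≤ 4 * κ * ‖hatMap e x₀ q - hatMap e x₀ p‖) := by
    intro η' hη' hη'2
    obtain ⟨r1, hr1, a1, a2, a3⟩ := hatMap_local e he x₀ η' hη'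
    obtain ⟨r2, hr2, b1, b2, b3⟩ := hatMap_local h hh x₀ η' hη'
    have hs1 : Metric.ball p₀ (min r1 r2) ⊆ Metric.ball p₀ r1 := Metric.ball_subset_ball (min_le_left _ _)
    have hs2 : Metric.ball p₀ (min r1 r2) ⊆ Metric.ball p₀ r2 := Metric.ball_subset_ball (min_le_right _ _)
    have hη'3 : η' * (4 * κ) ≤ 1 := by
      rwa [le_div_iff₀ (by positivity)] at hη'2
    have low : ∀ p ∈ Metric.ball p₀ (min r1 r2), ∀ w : E₀,
        ‖w‖ ≤ 2 * κ * ‖fderiv ℝ (hatMap e x₀) p w‖ := by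
      intro p hp w
      have h1 := a2 p (hs1 hp)
      have h2 := hLlow w
      have h3 : ‖L w‖ ≤ ‖fderiv ℝ (hatMap e x₀) p w‖ + η' * ‖w‖ := by
        have e1 : L w = fderiv ℝ (hatMap e x₀) p w - (fderiv ℝ (hatMap e x₀) p - L) w := by
          simp only [sub_apply]; abel
        rw [e1]
        refine (norm_sub_le _ _).trans (add_le_add_right ?_ _)
        exact (ContinuousLinearMap.le_opNorm _ _).trans
          (mul_le_mul_of_nonneg_right h1 (norm_nonneg _))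
      have h4 : κ * ‖L w‖ ≤ κ * (‖fderiv ℝ (hatMap e x₀) p w‖ + η' * ‖w‖) :=
        mul_le_mul_of_nonneg_left h3 hκ0.le
      have h5 : η' * (4 * κ) * ‖w‖ ≤ 1 * ‖w‖ := mul_le_mul_of_nonneg_right hη'3 (norm_nonneg _)
      nlinarith [norm_nonneg w, norm_nonneg (fderiv ℝ (hatMap e x₀) p w)]
    refine ⟨min r1 r2, lt_min hr1 hr2, hs1.trans a1, fun p hp => a2 p (hs1 hp),
      fun p hp => b2 p (hs2 hp), low, fun p hp q hq => a3 p (hs1 hp) q (hs1 hq),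
      fun p hp q hq => b3 p (hs2 hp) q (hs2 hq), fun p hp q hq => ?_⟩
    have h1 := a3 p (hs1 hp) q (hs1 hq)
    have h2 := low p hp (q - p)
    have h3 := norm_sub_le (hatMap e x₀ q - hatMap e x₀ p)
      (hatMap e x₀ q - hatMap e x₀ p - fderiv ℝ (hatMap e x₀) p (q - p))
    rw [sub_sub_cancel] at h3
    have h4 : 2 * κ * ‖fderiv ℝ (hatMap e x₀) p (q - p)‖ ≤
        2 * κ * (‖hatMap e x₀ q - hatMap e x₀ p‖ + η' * ‖q - p‖) :=
      mul_le_mul_of_nonneg_left (by linarith) (by positivity)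
    have h5 : η' * (4 * κ) * ‖q - p‖ ≤ 1 * ‖q - p‖ :=
      mul_le_mul_of_nonneg_right hη'3 (norm_nonneg _)
    nlinarith [norm_nonneg (q - p)]
  -- pull back of a ball
  have hpull : ∀ r > 0, φ.source ∩ φ ⁻¹' Metric.ball p₀ r ∈ 𝓝 x₀ := by
    intro r hr
    have h1 : ContinuousAt φ x₀ := continuousAt_extChartAt x₀
    exact inter_mem ((isOpen_extChartAt_source (I := 𝓘(ℝ, E₀)) x₀).mem_nhds hx₀)
      (h1.preimage_mem_nhds (Metric.ball_mem_nhds _ hr))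
  constructor
  · obtain ⟨r, hr0, c1, c2, c3, c4, c5, c6, c7⟩ := hrad (1 / (4 * κ)) (by positivity) le_rfl
    refine ⟨max (2 * κ) (‖L'‖ + 1 / (4 * κ)), lt_max_of_lt_left (by positivity), ?_⟩
    filter_upwards [hpull r hr0] with x hx v
    have hv1 := hatMap_mfderiv e he x₀ x hx.1 v
    have hv2 := hatMap_mfderiv h hh x₀ x hx.1 v
    constructor
    · rw [hv1]
      refine (c4 _ hx.2 _).trans ?_
      exact mul_le_mul_of_nonneg_right (le_max_left _ _) (norm_nonneg _)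
    · rw [hv2]
      refine (ContinuousLinearMap.le_opNorm _ _).trans ?_
      refine mul_le_mul_of_nonneg_right ?_ (norm_nonneg _)
      refine le_trans ?_ (le_max_right _ _)
      have h1 := c3 _ hx.2
      have h2 := norm_add_le L' (fderiv ℝ (hatMap h x₀) (φ x) - L')
      rw [add_sub_cancel] at h2
      linarith
  · intro η hη
    set η' := min (1 / (4 * κ)) (η / (8 * κ)) with hη'
    have hη'0 : 0 < η' := lt_min (by positivity) (by positivity)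
    have hη'1 : η' ≤ 1 / (4 * κ) := min_le_left _ _
    have hη'2 : η' * (8 * κ) ≤ η := by
      have : η' ≤ η / (8 * κ) := min_le_right _ _
      rwa [le_div_iff₀ (by positivity)] at this
    obtain ⟨r, hr0, c1, c2, c3, c4, c5, c6, c7⟩ := hrad η' hη'0 hη'1
    refine ⟨φ.source ∩ φ ⁻¹' Metric.ball p₀ (r / 2), hpull _ (by positivity), r / (4 * κ),
      by positivity, ?_, ?_, ?_⟩
    · rintro x ⟨hxs, hxb⟩ y ⟨hys, hyb⟩
      have hxb' : φ x ∈ Metric.ball p₀ r := Metric.ball_subset_ball (by linarith) hxb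
      have hyb' : φ y ∈ Metric.ball p₀ r := Metric.ball_subset_ball (by linarith) hyb
      obtain ⟨A, hA⟩ := isInvertible_mfderiv_extChartAt (I := 𝓘(ℝ, E₀)) hxs
      have hAv : dm E₀ φ x (A.symm (φ y - φ x)) = φ y - φ x := by
        show mfderiv 𝓘(ℝ, E₀) 𝓘(ℝ, E₀) φ x (A.symm (φ y - φ x)) = φ y - φ x
        rw [← hA]; exact A.apply_symm_apply (φ y - φ x)
      refine ⟨A.symm (φ y - φ x), ?_, ?_⟩
      · have hv1 := hatMap_mfderiv e he x₀ x hxs (A.symm (φ y - φ x))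
        rw [hv1, ← hφ, hAv]
        have ex : e x = hatMap e x₀ (φ x) := by
          show e x = e (φ.symm (φ x)); rw [φ.left_inv hxs]
        have ey : e y = hatMap e x₀ (φ y) := by
          show e y = e (φ.symm (φ y)); rw [φ.left_inv hys]
        rw [ex, ey]
        have h1 := c5 _ hxb' _ hyb'
        have h2 := c7 _ hxb' _ hyb'
        have h3 : η' * ‖φ y - φ x‖ ≤ η' * (4 * κ * ‖hatMap e x₀ (φ y) - hatMap e x₀ (φ x)‖) :=
          mul_le_mul_of_nonneg_left h2 hη'0.le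
        have h4 : η' * (8 * κ) * ‖hatMap e x₀ (φ y) - hatMap e x₀ (φ x)‖ ≤
          η * ‖hatMap e x₀ (φ y) - hatMap e x₀ (φ x)‖ :=
          mul_le_mul_of_nonneg_right hη'2 (norm_nonneg _)
        have h5 : 0 ≤ η' * (4 * κ) * ‖hatMap e x₀ (φ y) - hatMap e x₀ (φ x)‖ := by positivity
        refine h1.trans ?_
        linarith
      · have hv1 := hatMap_mfderiv h hh x₀ x hxs (A.symm (φ y - φ x))
        rw [hv1, ← hφ, hAv]
        have ex : e x = hatMap e x₀ (φ x) := by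
          show e x = e (φ.symm (φ x)); rw [φ.left_inv hxs]
        have ey : e y = hatMap e x₀ (φ y) := by
          show e y = e (φ.symm (φ y)); rw [φ.left_inv hys]
        have hx' : h x = hatMap h x₀ (φ x) := by
          show h x = h (φ.symm (φ x)); rw [φ.left_inv hxs]
        have hy' : h y = hatMap h x₀ (φ y) := by
          show h y = h (φ.symm (φ y)); rw [φ.left_inv hys]
        rw [ex, ey, hx', hy']
        have h1 := c6 _ hxb' _ hyb'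
        have h2 := c7 _ hxb' _ hyb'
        have h3 : η' * ‖φ y - φ x‖ ≤ η' * (4 * κ * ‖hatMap e x₀ (φ y) - hatMap e x₀ (φ x)‖) :=
          mul_le_mul_of_nonneg_left h2 hη'0.le
        have h4 : η' * (8 * κ) * ‖hatMap e x₀ (φ y) - hatMap e x₀ (φ x)‖ ≤
          η * ‖hatMap e x₀ (φ y) - hatMap e x₀ (φ x)‖ :=
          mul_le_mul_of_nonneg_right hη'2 (norm_nonneg _)
        have h5 : 0 ≤ η' * (4 * κ) * ‖hatMap e x₀ (φ y) - hatMap e x₀ (φ x)‖ := by positivity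
        refine h1.trans ?_
        linarith
    · rintro x ⟨hxs, hxb⟩ v hv
      have hxb' : φ x ∈ Metric.ball p₀ r := Metric.ball_subset_ball (by linarith) hxb
      have hv1 := hatMap_mfderiv e he x₀ x hxs v
      rw [← hφ] at hv1
      set w : E₀ := dm E₀ φ x v with hw
      rw [hv1] at hv ⊢
      have h1 := c4 _ hxb' w
      have h2 : ‖w‖ < r / 2 := by
        rw [lt_div_iff₀ (by positivity)] at hv
        linarith
      have hq : φ x + w ∈ Metric.ball p₀ r := by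
        have hxb2 : φ x ∈ Metric.ball p₀ (r / 2) := hxb
        rw [Metric.mem_ball, dist_eq_norm] at hxb2 ⊢
        have : φ x + w - p₀ = (φ x - p₀) + w := by abel
        rw [this]
        exact lt_of_le_of_lt (norm_add_le _ _) (by linarith)
      refine ⟨φ.symm (φ x + w), ?_⟩
      have ex : e x = hatMap e x₀ (φ x) := by
        show e x = e (φ.symm (φ x)); rw [φ.left_inv hxs]
      have ey : e (φ.symm (φ x + w)) = hatMap e x₀ (φ x + w) := rfl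
      rw [ex, ey]
      have h3 := c5 _ hxb' _ hq
      rw [add_sub_cancel_left] at h3
      refine h3.trans ?_
      have h4 : η' * ‖w‖ ≤ η' * (2 * κ * ‖fderiv ℝ (hatMap e x₀) (φ x) w‖) :=
        mul_le_mul_of_nonneg_left h1 hη'0.le
      have h5 : η' * (8 * κ) * ‖fderiv ℝ (hatMap e x₀) (φ x) w‖ ≤
          η * ‖fderiv ℝ (hatMap e x₀) (φ x) w‖ :=
          mul_le_mul_of_nonneg_right hη'2 (norm_nonneg _)
      have h6 : 0 ≤ η' * (6 * κ) * ‖fderiv ℝ (hatMap e x₀) (φ x) w‖ := by positivity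
      linarith
    · rintro x ⟨hxs, hxb⟩ y ⟨hys, hyb⟩ v
      have hxb' : φ x ∈ Metric.ball p₀ r := Metric.ball_subset_ball (by linarith) hxb
      have hyb' : φ y ∈ Metric.ball p₀ r := Metric.ball_subset_ball (by linarith) hyb
      obtain ⟨A, hA⟩ := isInvertible_mfderiv_extChartAt (I := 𝓘(ℝ, E₀)) hys
      set w : E₀ := dm E₀ φ x v with hw
      have hAv : dm E₀ φ y (A.symm w) = w := by
        show mfderiv 𝓘(ℝ, E₀) 𝓘(ℝ, E₀) φ y (A.symm w) = w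
        rw [← hA]; exact A.apply_symm_apply w
      refine ⟨A.symm w, ?_⟩
      have a1 := hatMap_mfderiv e he x₀ x hxs v
      have a2 := hatMap_mfderiv e he x₀ y hys (A.symm w)
      have b1 := hatMap_mfderiv h hh x₀ x hxs v
      have b2 := hatMap_mfderiv h hh x₀ y hys (A.symm w)
      rw [← hφ] at a1 a2 b1 b2
      rw [hAv] at a2 b2
      rw [a1, a2, b1, b2, ← hw]
      have h1 := c4 _ hxb' w
      have h4 : η' * ‖w‖ ≤ η' * (2 * κ * ‖fderiv ℝ (hatMap e x₀) (φ x) w‖) :=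
        mul_le_mul_of_nonneg_left h1 hη'0.le
      have h5 : η' * (8 * κ) * ‖fderiv ℝ (hatMap e x₀) (φ x) w‖ ≤
          η * ‖fderiv ℝ (hatMap e x₀) (φ x) w‖ :=
          mul_le_mul_of_nonneg_right hη'2 (norm_nonneg _)
      have h6 : 0 ≤ η' * (4 * κ) * ‖fderiv ℝ (hatMap e x₀) (φ x) w‖ := by positivity
      constructor
      · have e1 : fderiv ℝ (hatMap e x₀) (φ x) w - fderiv ℝ (hatMap e x₀) (φ y) w =
          (fderiv ℝ (hatMap e x₀) (φ x) - L) w - (fderiv ℝ (hatMap e x₀) (φ y) - L) w := by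
          simp only [sub_apply]; abel
        rw [e1]
        have h7 := (ContinuousLinearMap.le_opNorm (fderiv ℝ (hatMap e x₀) (φ x) - L) w).trans
          (mul_le_mul_of_nonneg_right (c2 _ hxb') (norm_nonneg _))
        have h8 := (ContinuousLinearMap.le_opNorm (fderiv ℝ (hatMap e x₀) (φ y) - L) w).trans
          (mul_le_mul_of_nonneg_right (c2 _ hyb') (norm_nonneg _))
        have h9 := norm_sub_le ((fderiv ℝ (hatMap e x₀) (φ x) - L) w)
          ((fderiv ℝ (hatMap e x₀) (φ y) - L) w)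
        linarith
      · have e1 : fderiv ℝ (hatMap h x₀) (φ x) w - fderiv ℝ (hatMap h x₀) (φ y) w =
          (fderiv ℝ (hatMap h x₀) (φ x) - L') w - (fderiv ℝ (hatMap h x₀) (φ y) - L') w := by
          simp only [sub_apply]; abel
        rw [e1]
        have h7 := (ContinuousLinearMap.le_opNorm (fderiv ℝ (hatMap h x₀) (φ x) - L') w).trans
          (mul_le_mul_of_nonneg_right (c3 _ hxb') (norm_nonneg _))
        have h8 := (ContinuousLinearMap.le_opNorm (fderiv ℝ (hatMap h x₀) (φ y) - L') w).trans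
          (mul_le_mul_of_nonneg_right (c3 _ hyb') (norm_nonneg _))
        have h9 := norm_sub_le ((fderiv ℝ (hatMap h x₀) (φ x) - L') w)
          ((fderiv ℝ (hatMap h x₀) (φ y) - L') w)
        linarith

end chart

end Pool.Agent.H721R2
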