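import Pool.Agent.H66.L.S8.H721R2.Build
import Pool.Agent.H66.L.S8.H721R2.AnosovDef

set_option autoImplicit false
set_option linter.unusedSectionVars false

open scoped Manifold ContDiff Topology Bundle
open Set Filter Bundle

namespace Pool.Agent.H721R2

variable {E₀ : Type*} [NormedAddCommGroup E₀] [NormedSpace ℝ E₀] [FiniteDimensional ℝ E₀]
  {M : Type*} [MetricSpace M] [CompactSpace M] [ChartedSpace E₀ M] [IsManifold 𝓘(ℝ, E₀) 1 M]
  {F : Type*} [NormedAddCommGroup F] [NormedSpace ℝ F]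

/-- the norm of a model vector seen as a tangent vector at `x` -/
noncomputable def tnm (N : TangentBundle 𝓘(ℝ, E₀) M → ℝ) (x : M) (v : E₀) : ℝ :=
  N ⟨x, (v : TangentSpace 𝓘(ℝ, E₀) x)⟩

theorem tnm_smul {N : TangentBundle 𝓘(ℝ, E₀) M → ℝ} (hN : IsTangentNorm N) (x : M) (c : ℝ)
    (v : E₀) : tnm N x (c • v) = |c| * tnm N x v := hN.smul x c v

theorem tnm_nonneg {N : TangentBundle 𝓘(ℝ, E₀) M → ℝ} (hN : IsTangentNorm N) (x : M)
    (v : E₀) : 0 ≤ tnm N x v := by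
  by_cases hv : v = 0
  · subst hv
    have := tnm_smul hN x 0 (0 : E₀)
    rw [zero_smul, abs_zero, zero_mul] at this
    exact this.ge
  · exact (hN.pos x v hv).le

theorem tnm_local {N : TangentBundle 𝓘(ℝ, E₀) M → ℝ} (hN : IsTangentNorm N) (x₀ : M) :
    ∃ C > 0, ∀ᶠ x in 𝓝 x₀, ∀ v : E₀, tnm N x v ≤ C * ‖dm E₀ (extChartAt 𝓘(ℝ, E₀) x₀) x v‖ ∧
      ‖dm E₀ (extChartAt 𝓘(ℝ, E₀) x₀) x v‖ ≤ C * tnm N x v := by
  obtain ⟨t, ht⟩ : ∃ t, t = trivializationAt E₀ (TangentSpace 𝓘(ℝ, E₀) : M → Type _) x₀ := ⟨_, rfl⟩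
  have hlin : t.IsLinear ℝ := by rw [ht]; infer_instance
  have hb₀ : x₀ ∈ t.baseSet := by
    rw [ht]; exact FiberBundle.mem_baseSet_trivializationAt' x₀
  have hbase : ∀ᶠ x in 𝓝 x₀, x ∈ t.baseSet := t.open_baseSet.mem_nhds hb₀
  have hA : ∀ x ∈ t.baseSet, ∀ v : E₀,
      (t.symmL ℝ x : E₀ → E₀) (dm E₀ (extChartAt 𝓘(ℝ, E₀) x₀) x v) = v := by
    intro x hx v
    have hx' : x ∈ (chartAt E₀ x₀).source := by
      rwa [ht, TangentBundle.trivializationAt_baseSet] at hx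
    have h1 : (trivializationAt E₀ (TangentSpace 𝓘(ℝ, E₀) : M → Type _) x₀).continuousLinearMapAt
        ℝ x v = dm E₀ (extChartAt 𝓘(ℝ, E₀) x₀) x v := by
      rw [TangentBundle.continuousLinearMapAt_trivializationAt hx']
      rfl
    rw [← h1]
    subst ht
    exact (trivializationAt E₀ (TangentSpace 𝓘(ℝ, E₀) : M → Type _)
      x₀).symmL_continuousLinearMapAt hx v
  let g : M × E₀ → ℝ := fun z => N ⟨z.1, t.symmL ℝ z.1 z.2⟩
  have hg : ContinuousOn g (t.baseSet ×ˢ univ) := by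
    refine (hN.continuous.comp_continuousOn t.continuousOn_symm).congr (fun z hz => ?_)
    show N _ = N _
    rw [t.symmL_apply hz.1]
  have hgat : ∀ w : E₀, ContinuousAt g (x₀, w) := fun w =>
    hg.continuousAt ((t.open_baseSet.prod isOpen_univ).mem_nhds ⟨hb₀, trivial⟩)
  set S := Metric.sphere (0 : E₀) 1 with hS
  have hSc : IsCompact S := isCompact_sphere _ _
  -- positivity at x₀
  have hpos : ∀ w ∈ S, 0 < g (x₀, w) := by
    intro w hw
    apply hN.pos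
    intro h0
    have h1 : t.continuousLinearMapAt ℝ x₀ (t.symmL ℝ x₀ w) = w :=
      t.continuousLinearMapAt_symmL hb₀ w
    rw [h0, map_zero] at h1
    rw [← h1] at hw
    simp [hS] at hw
  have hcS : ContinuousOn (fun w => g (x₀, w)) S := fun w _ =>
    ((hgat w).comp (Continuous.prodMk_right x₀).continuousAt).continuousWithinAt
  obtain ⟨C, hC0, hC⟩ : ∃ C > 0, ∀ w ∈ S, g (x₀, w) < C ∧ 1 / C < g (x₀, w) := by
    by_cases hne : S.Nonempty
    · obtain ⟨w1, hw1, h1⟩ := hSc.exists_isMaxOn hne hcS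
      obtain ⟨w2, hw2, h2⟩ := hSc.exists_isMinOn hne hcS
      have hp2 := hpos w2 hw2
      have hp1 := hpos w1 hw1
      refine ⟨g (x₀, w1) + 1 + 1 / g (x₀, w2), by positivity, fun w hw => ⟨?_, ?_⟩⟩
      · have : g (x₀, w) ≤ g (x₀, w1) := h1 hw
        have : 0 < 1 / g (x₀, w2) := by positivity
        linarith
      · have h3 : g (x₀, w2) ≤ g (x₀, w) := h2 hw
        refine lt_of_lt_of_le ?_ h3
        rw [div_lt_iff₀ (by positivity)]
        have h4 : g (x₀, w2) * (1 / g (x₀, w2)) = 1 := by field_simp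
        nlinarith
    · refine ⟨1, one_pos, fun w hw => absurd ⟨w, hw⟩ hne⟩
  have hev : ∀ᶠ x in 𝓝 x₀, ∀ w ∈ S, g (x, w) < C ∧ 1 / C < g (x, w) := by
    apply hSc.eventually_forall_of_forall_eventually (P := fun x w => g (x, w) < C ∧ 1 / C < g (x, w))
    intro w hw
    obtain ⟨h1, h2⟩ := hC w hw
    have h3 : ∀ᶠ z in 𝓝 (x₀, w), g z < C := (hgat w).eventually (gt_mem_nhds h1)
    have h4 : ∀ᶠ z in 𝓝 (x₀, w), 1 / C < g z := (hgat w).eventually (lt_mem_nhds h2)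
    filter_upwards [h3, h4] with z hz1 hz2 using ⟨hz1, hz2⟩
  refine ⟨C, hC0, ?_⟩
  filter_upwards [hbase, hev] with x hx hgx v
  set w := dm E₀ (extChartAt 𝓘(ℝ, E₀) x₀) x v with hw
  have hvw : (t.symmL ℝ x : E₀ → E₀) w = v := hA x hx v
  by_cases hw0 : w = 0
  · have hv0 : v = 0 := by
      rw [hw0] at hvw
      exact hvw.symm.trans (map_zero (t.symmL ℝ x))
    have h1 := tnm_smul hN x 0 (0 : E₀)
    rw [zero_smul, abs_zero, zero_mul] at h1
    rw [hw0, hv0, h1, norm_zero]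
    simp
  · have hn : 0 < ‖w‖ := norm_pos_iff.mpr hw0
    have hmem : (‖w‖⁻¹ • w) ∈ S := by
      rw [hS, mem_sphere_zero_iff_norm, norm_smul, norm_inv, norm_norm, inv_mul_cancel₀ hn.ne']
    obtain ⟨h1, h2⟩ := hgx _ hmem
    have h3 : g (x, ‖w‖⁻¹ • w) = ‖w‖⁻¹ * tnm N x v := by
      have h4 : (t.symmL ℝ x : E₀ → E₀) (‖w‖⁻¹ • w) = ‖w‖⁻¹ • v := by
        have : t.symmL ℝ x (‖w‖⁻¹ • w) = ‖w‖⁻¹ • t.symmL ℝ x w := map_smul _ _ _
        refine this.trans ?_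
        congr 1
      show tnm N x ((t.symmL ℝ x : E₀ → E₀) (‖w‖⁻¹ • w)) = _
      rw [h4]
      have := tnm_smul hN x ‖w‖⁻¹ v
      rw [abs_of_pos (inv_pos.mpr hn)] at this
      exact this
    rw [h3] at h1 h2
    constructor
    · rw [inv_mul_lt_iff₀ hn] at h1
      linarith
    · rw [lt_inv_mul_iff₀ hn] at h2
      have h5 : ‖w‖ * (1 / C) * C ≤ tnm N x v * C := mul_le_mul_of_nonneg_right h2.le hC0.le
      have h6 : ‖w‖ * (1 / C) * C = ‖w‖ := by field_simp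
      linarith

theorem tnm_compare {N : TangentBundle 𝓘(ℝ, E₀) M → ℝ} (hN : IsTangentNorm N)
    (e : M → F) (he : ContMDiff 𝓘(ℝ, E₀) 𝓘(ℝ, F) 1 e)
    (hinj : ∀ x, Function.Injective (dm E₀ e x)) :
    ∃ R > 0, ∀ (x : M) (v : E₀),
      ‖dm E₀ e x v‖ ≤ R * tnm N x v ∧ tnm N x v ≤ R * ‖dm E₀ e x v‖ := by
  apply exists_uniform_const (fun R (x : M) => ∀ v : E₀,
      ‖dm E₀ e x v‖ ≤ R * tnm N x v ∧ tnm N x v ≤ R * ‖dm E₀ e x v‖)
  · intro C C' x hCC' h v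
    obtain ⟨h1, h2⟩ := h v
    exact ⟨h1.trans (mul_le_mul_of_nonneg_right hCC' (tnm_nonneg hN x v)),
      h2.trans (mul_le_mul_of_nonneg_right hCC' (norm_nonneg _))⟩
  · intro x₀
    obtain ⟨⟨C, hC, h1⟩, -⟩ := local_all e he hinj e he x₀
    obtain ⟨C1, hC1, h2⟩ := tnm_local hN x₀
    refine ⟨C * C1, ?_⟩
    filter_upwards [h1, h2] with x hx1 hx2 v
    obtain ⟨h5, h6⟩ := hx1 v
    obtain ⟨h7, h8⟩ := hx2 v
    constructor
    · calc _ ≤ C * ‖dm E₀ (extChartAt 𝓘(ℝ, E₀) x₀) x v‖ := h6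
        _ ≤ C * (C1 * tnm N x v) := mul_le_mul_of_nonneg_left h8 hC.le
        _ = (C * C1) * tnm N x v := by ring
    · calc _ ≤ C1 * ‖dm E₀ (extChartAt 𝓘(ℝ, E₀) x₀) x v‖ := h7
        _ ≤ C1 * (C * ‖dm E₀ e x v‖) := mul_le_mul_of_nonneg_left h5 hC1.le
        _ = (C * C1) * ‖dm E₀ e x v‖ := by ring

/-- From intrinsic rates to ambient rates. -/
theorem eanosov_of_rates {N : TangentBundle 𝓘(ℝ, E₀) M → ℝ} (hN : IsTangentNorm N)
    (e : M → F) (he : ContMDiff 𝓘(ℝ, E₀) 𝓘(ℝ, F) 1 e)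
    (hinj : ∀ x, Function.Injective (dm E₀ e x))
    (φ : M ≃ₜ M) (hsm : ContMDiff 𝓘(ℝ, E₀) 𝓘(ℝ, E₀) 1 φ)
    (hsm' : ContMDiff 𝓘(ℝ, E₀) 𝓘(ℝ, E₀) 1 φ.symm)
    (Es Eu : ∀ x : M, Submodule ℝ (TangentSpace 𝓘(ℝ, E₀) x)) (C μ₁ μ₂ l₁ l₂ : ℝ)
    (h : AnosovRates φ N Es Eu C μ₁ μ₂ l₁ l₂) :
    ∃ C' : ℝ, EAnosov (E₀ := E₀) e φ Es Eu C' μ₂ l₁⁻¹ μ₁⁻¹ l₂ := by
  obtain ⟨R, hR, hcmp⟩ := tnm_compare hN e he hinj
  have hC := h.C_pos
  have hμ := h.mu_pos
  have hl : 0 < l₁ := by linarith [h.lam_gt]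
  have hl2 : 0 < l₂ := by linarith [h.lam_le]
  have hμ2 : 0 < μ₂ := by linarith [h.mu_le]
  let Es' : M → Submodule ℝ E₀ := Es
  let Eu' : M → Submodule ℝ E₀ := Eu
  have map1 : ∀ (E : M → Submodule ℝ E₀), (∀ x, (E x).map (dg E₀ φ x).toLinearMap = E (φ x)) →
      ∀ (n : ℕ) (x : M), ∀ v ∈ E x, dg E₀ (φ^[n]) x v ∈ E (φ^[n] x) := by
    intro E hE n
    induction n with
    | zero =>
      intro x v hv
      have : dg E₀ (φ^[0]) x v = v := by
        show mfderiv 𝓘(ℝ, E₀) 𝓘(ℝ, E₀) id x v = v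
        rw [mfderiv_id]; rfl
      rw [this]; exact hv
    | succ n ih =>
      intro x v hv
      rw [Function.iterate_succ, dg_comp _ _ hsm (iter_smooth φ hsm n)]
      apply ih
      rw [← hE]
      exact ⟨v, hv, rfl⟩
  have map2 : ∀ (E : M → Submodule ℝ E₀), (∀ x, (E x).map (dg E₀ φ x).toLinearMap = E (φ x)) →
      ∀ (n : ℕ) (x : M), ∀ v ∈ E x, dg E₀ (φ.symm^[n]) x v ∈ E (φ.symm^[n] x) := by
    intro E hE n
    have base : ∀ (x : M), ∀ v ∈ E x, dg E₀ φ.symm x v ∈ E (φ.symm x) := by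
      intro x v hv
      have hx : E x = E (φ (φ.symm x)) := by rw [Homeomorph.apply_symm_apply]
      rw [hx, ← hE] at hv
      obtain ⟨w, hw, hwv⟩ := hv
      have h1 := dg_inv φ φ.symm hsm hsm' (fun x => φ.symm_apply_apply x) (φ.symm x) w
      rw [Homeomorph.apply_symm_apply] at h1
      have h2 : dg E₀ φ (φ.symm x) w = v := hwv
      rw [h2] at h1
      rw [h1]; exact hw
    induction n with
    | zero =>
      intro x v hv
      have : dg E₀ (φ.symm^[0]) x v = v := by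
        show mfderiv 𝓘(ℝ, E₀) 𝓘(ℝ, E₀) id x v = v
        rw [mfderiv_id]; rfl
      rw [this]; exact hv
    | succ n ih =>
      intro x v hv
      rw [Function.iterate_succ, dg_comp _ _ hsm' (iter_smooth φ.symm hsm' n)]
      exact ih _ _ (base x v hv)
  have hEs : ∀ x, (Es' x).map (dg E₀ φ x).toLinearMap = Es' (φ x) := h.map_s
  have hEu : ∀ x, (Eu' x).map (dg E₀ φ x).toLinearMap = Eu' (φ x) := h.map_u
  set C' := max 1 (R * R * C) with hC'
  have hC'1 : 1 ≤ C' := le_max_left _ _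
  have hC'2 : R * R * C ≤ C' := le_max_right _ _
  -- transfer principle: upper bound
  have trans : ∀ (x y : M) (v w : E₀) (q : ℝ), 0 ≤ q → tnm N y w ≤ C * q * tnm N x v →
      ‖dm E₀ e y w‖ ≤ C' * q * ‖dm E₀ e x v‖ := by
    intro x y v w q hq hle
    have h1 := (hcmp y w).1
    have h2 := (hcmp x v).2
    calc ‖dm E₀ e y w‖ ≤ R * tnm N y w := h1
      _ ≤ R * (C * q * tnm N x v) := mul_le_mul_of_nonneg_left hle hR.le
      _ ≤ R * (C * q * (R * ‖dm E₀ e x v‖)) := by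
          apply mul_le_mul_of_nonneg_left _ hR.le
          exact mul_le_mul_of_nonneg_left h2 (by positivity)
      _ = (R * R * C) * (q * ‖dm E₀ e x v‖) := by ring
      _ ≤ C' * (q * ‖dm E₀ e x v‖) := mul_le_mul_of_nonneg_right hC'2 (by positivity)
      _ = _ := by ring
  have hcancel : ∀ (n : ℕ) (x : M) (v : E₀),
      dg E₀ (φ^[n]) (φ.symm^[n] x) (dg E₀ (φ.symm^[n]) x v) = v := fun n x v =>
    dg_inv (φ.symm^[n]) (φ^[n]) (iter_smooth φ.symm hsm' n) (iter_smooth φ hsm n)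
      (iter_right φ n) x v
  refine ⟨C', {
    smooth := hsm
    smooth' := hsm'
    compl := h.isCompl
    C_pos := hC'1
    a_pos := hμ2
    b_pos := inv_pos.mpr hl
    a_lt := h.mu_lt
    b_lt := inv_lt_one_of_one_lt₀ h.lam_gt
    Ls_le := (one_le_inv₀ hμ).mpr (by linarith [h.mu_le, h.mu_lt])
    Lu_le := by linarith [h.lam_gt, h.lam_le]
    mapS := map1 Es' hEs
    mapU := map1 Eu' hEu
    mapS' := map2 Es' hEs
    mapU' := map2 Eu' hEu
    hS := ?_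
    hU' := ?_
    hS' := ?_
    hU := ?_ }⟩
  · intro n x v hv
    exact trans x _ v _ _ (by positivity) (h.rate_s n x v hv).2
  · intro n x v hv
    apply trans x _ v _ _ (by positivity)
    have h1 := (h.rate_u n (φ.symm^[n] x) _ (map2 Eu' hEu n x v hv)).1
    change C⁻¹ * l₁ ^ n * tnm N (φ.symm^[n] x) (dg E₀ (φ.symm^[n]) x v) ≤
      tnm N (φ^[n] (φ.symm^[n] x)) (dg E₀ (φ^[n]) (φ.symm^[n] x) (dg E₀ (φ.symm^[n]) x v)) at h1
    rw [hcancel, iter_right] at h1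
    have h2 : tnm N (φ.symm^[n] x) (dg E₀ (φ.symm^[n]) x v) =
        (C * l₁⁻¹ ^ n) * (C⁻¹ * l₁ ^ n * tnm N (φ.symm^[n] x) (dg E₀ (φ.symm^[n]) x v)) := by
      rw [inv_pow]; field_simp
    rw [h2]
    exact mul_le_mul_of_nonneg_left h1 (by positivity)
  · intro n x v hv
    apply trans x _ v _ _ (by positivity)
    have h1 := (h.rate_s n (φ.symm^[n] x) _ (map2 Es' hEs n x v hv)).1
    change C⁻¹ * μ₁ ^ n * tnm N (φ.symm^[n] x) (dg E₀ (φ.symm^[n]) x v) ≤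
      tnm N (φ^[n] (φ.symm^[n] x)) (dg E₀ (φ^[n]) (φ.symm^[n] x) (dg E₀ (φ.symm^[n]) x v)) at h1
    rw [hcancel, iter_right] at h1
    have h2 : tnm N (φ.symm^[n] x) (dg E₀ (φ.symm^[n]) x v) =
        (C * μ₁⁻¹ ^ n) * (C⁻¹ * μ₁ ^ n * tnm N (φ.symm^[n] x) (dg E₀ (φ.symm^[n]) x v)) := by
      rw [inv_pow]; field_simp
    rw [h2]
    exact mul_le_mul_of_nonneg_left h1 (by positivity)
  · intro n x v hv
    exact trans x _ v _ _ (by positivity) (h.rate_u n x v hv).2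

end Pool.Agent.H721R2
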