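import Pool.Agent.H66.L.S8.H721R2.HypSys

set_option autoImplicit false

namespace Pool.Agent.H721R2

namespace HypSys

variable {X E : Type*} [MetricSpace X] [NormedAddCommGroup E] [NormedSpace ℝ E]

open Filter Topology

/-- Lipschitz shadowing of bi-infinite pseudo-orbits. -/
theorem shadowing [CompactSpace X] (S : HypSys X E) : ∃ ε₀ > 0, ∀ ε ≤ ε₀, ∀ x : ℤ → X,
    (∀ n, dist (S.g (x n)) (x (n + 1)) ≤ ε) →
    ∃ y : ℤ → X, (∀ n, y (n + 1) = S.g (y n)) ∧ (∀ n, dist (y n) (x n) ≤ 8 * S.K * ε) := by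
  obtain ⟨ε₀, hε₀, hc⟩ := S.correction
  refine ⟨ε₀, hε₀, fun ε hε x hx => ?_⟩
  have hεn : 0 ≤ ε := le_trans dist_nonneg (hx 0)
  have hK := S.one_le_K
  -- one step as a function
  have hstep : ∀ (k : ℕ) (z : {z : ℤ → X // ∀ n, dist (S.g (z n)) (z (n + 1)) ≤ ε / 2 ^ k}),
      ∃ z' : {z : ℤ → X // ∀ n, dist (S.g (z n)) (z (n + 1)) ≤ ε / 2 ^ (k + 1)},
        ∀ n, dist (z'.1 n) (z.1 n) ≤ 4 * S.K * (ε / 2 ^ k) := by
    intro k z
    have h1 : ε / 2 ^ k ≤ ε₀ := (div_le_self hεn (one_le_pow₀ (by norm_num))).trans hε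
    obtain ⟨x', h2, h3⟩ := hc _ h1 z.1 z.2
    refine ⟨⟨x', fun n => ?_⟩, h2⟩
    have := h3 n
    rwa [div_div, ← pow_succ] at this
  choose F hF using hstep
  let Z : (k : ℕ) → {z : ℤ → X // ∀ n, dist (S.g (z n)) (z (n + 1)) ≤ ε / 2 ^ k} := fun k =>
    Nat.rec ⟨x, by simpa using hx⟩ (fun k z => F k z) k
  have hZ : ∀ k n, dist ((Z (k + 1)).1 n) ((Z k).1 n) ≤ 4 * S.K * (ε / 2 ^ k) := fun k n =>
    hF k (Z k) n
  have hZ' : ∀ n k, dist ((Z k).1 n) ((Z (k + 1)).1 n) ≤ 8 * S.K * ε / 2 / 2 ^ k := by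
    intro n k
    rw [dist_comm]
    refine (hZ k n).trans (le_of_eq ?_)
    ring
  have hcs : ∀ n, CauchySeq (fun k => (Z k).1 n) := fun n =>
    cauchySeq_of_le_geometric_two (hZ' n)
  have hlim : ∀ n, ∃ y, Tendsto (fun k => (Z k).1 n) atTop (𝓝 y) := fun n =>
    cauchySeq_tendsto_of_complete (hcs n)
  choose y hy using hlim
  refine ⟨y, fun n => ?_, fun n => ?_⟩
  · have h1 : Tendsto (fun k => S.g ((Z k).1 n)) atTop (𝓝 (S.g (y n))) :=
      (S.g.continuous.tendsto _).comp (hy n)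
    have h2 := hy (n + 1)
    have h3 : Tendsto (fun k => dist (S.g ((Z k).1 n)) ((Z k).1 (n + 1))) atTop
        (𝓝 (dist (S.g (y n)) (y (n + 1)))) := h1.dist h2
    have h4 : Tendsto (fun k : ℕ => ε / 2 ^ k) atTop (𝓝 0) := by
      have : Tendsto (fun k : ℕ => ε * (1 / 2) ^ k) atTop (𝓝 (ε * 0)) :=
        (tendsto_pow_atTop_nhds_zero_of_lt_one (by norm_num) (by norm_num)).const_mul ε
      simpa [div_eq_mul_inv] using this
    have h5 : dist (S.g (y n)) (y (n + 1)) ≤ 0 :=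
      le_of_tendsto_of_tendsto' h3 h4 (fun k => (Z k).2 n)
    exact (dist_le_zero.mp h5).symm
  · have := dist_le_of_le_geometric_two_of_tendsto₀ (hZ' n) (hy n)
    rw [dist_comm]
    exact this

theorem orbit_nat (S : HypSys X E) (y : ℤ → X) (hy : ∀ n, y (n + 1) = S.g (y n)) (k : ℕ) :
    y k = S.g^[k] (y 0) := by
  induction k with
  | zero => simp
  | succ k ih =>
    rw [Function.iterate_succ_apply', ← ih]
    exact_mod_cast hy k

theorem orbit_neg (S : HypSys X E) (y : ℤ → X) (hy : ∀ n, y (n + 1) = S.g (y n)) (k : ℕ) :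
    y (-k) = S.g.symm^[k] (y 0) := by
  induction k with
  | zero => simp
  | succ k ih =>
    rw [Function.iterate_succ_apply', ← ih]
    have := hy (-((k : ℤ) + 1))
    rw [show (-((k : ℤ) + 1) + 1) = -(k : ℤ) by ring] at this
    rw [this, Homeomorph.symm_apply_apply]
    push_cast
    rfl

/-- Forward closeness relation. -/
def SRel (S : HypSys X E) (ε : ℝ) (x y : X) : Prop := ∀ k : ℕ, dist (S.g^[k] x) (S.g^[k] y) ≤ ε

/-- Backward closeness relation. -/
def URel (S : HypSys X E) (ε : ℝ) (x y : X) : Prop :=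
  ∀ k : ℕ, dist (S.g.symm^[k] x) (S.g.symm^[k] y) ≤ ε

theorem SRel.symm {S : HypSys X E} {ε : ℝ} {x y : X} (h : S.SRel ε x y) : S.SRel ε y x :=
  fun k => by rw [dist_comm]; exact h k

theorem URel.symm {S : HypSys X E} {ε : ℝ} {x y : X} (h : S.URel ε x y) : S.URel ε y x :=
  fun k => by rw [dist_comm]; exact h k

theorem SRel.mono {S : HypSys X E} {ε ε' : ℝ} {x y : X} (h : S.SRel ε x y) (he : ε ≤ ε') :
    S.SRel ε' x y := fun k => (h k).trans he

theorem URel.mono {S : HypSys X E} {ε ε' : ℝ} {x y : X} (h : S.URel ε x y) (he : ε ≤ ε') :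
    S.URel ε' x y := fun k => (h k).trans he

theorem SRel.trans {S : HypSys X E} {ε ε' : ℝ} {x y z : X} (h : S.SRel ε x y)
    (h' : S.SRel ε' y z) : S.SRel (ε + ε') x z :=
  fun k => (dist_triangle _ (S.g^[k] y) _).trans (add_le_add (h k) (h' k))

theorem URel.trans {S : HypSys X E} {ε ε' : ℝ} {x y z : X} (h : S.URel ε x y)
    (h' : S.URel ε' y z) : S.URel (ε + ε') x z :=
  fun k => (dist_triangle _ (S.g.symm^[k] y) _).trans (add_le_add (h k) (h' k))

theorem SRel.iter {S : HypSys X E} {ε : ℝ} {x y : X} (h : S.SRel ε x y) (m : ℕ) :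
    S.SRel ε (S.g^[m] x) (S.g^[m] y) := fun k => by
  rw [← Function.iterate_add_apply, ← Function.iterate_add_apply]; exact h _

theorem URel.iter {S : HypSys X E} {ε : ℝ} {x y : X} (h : S.URel ε x y) (m : ℕ) :
    S.URel ε (S.g.symm^[m] x) (S.g.symm^[m] y) := fun k => by
  rw [← Function.iterate_add_apply, ← Function.iterate_add_apply]; exact h _

theorem SRel.dist_le {S : HypSys X E} {ε : ℝ} {x y : X} (h : S.SRel ε x y) : dist x y ≤ ε := h 0

theorem URel.dist_le {S : HypSys X E} {ε : ℝ} {x y : X} (h : S.URel ε x y) : dist x y ≤ ε := h 0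

theorem SRel.map {S : HypSys X E} {ε : ℝ} {x y : X} (h : S.SRel ε x y) :
    S.SRel ε (S.g x) (S.g y) := h.iter 1

theorem URel.map {S : HypSys X E} {ε : ℝ} {x y : X} (h : S.URel ε x y) :
    S.URel ε (S.g.symm x) (S.g.symm y) := h.iter 1

theorem SRel_symm_sys (S : HypSys X E) (ε : ℝ) (x y : X) : S.symm.SRel ε x y ↔ S.URel ε x y :=
  Iff.rfl

theorem URel_symm_sys (S : HypSys X E) (ε : ℝ) (x y : X) : S.symm.URel ε x y ↔ S.SRel ε x y :=
  Iff.rfl

/-- Local product structure. -/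
theorem local_product [CompactSpace X] (S : HypSys X E) : ∃ ε₀ > 0, ∀ x y : X, dist x y ≤ ε₀ →
    ∃ z, S.SRel (9 * S.K * dist x y) x z ∧ S.URel (9 * S.K * dist x y) z y := by
  obtain ⟨ε₀, hε₀, hsh⟩ := S.shadowing
  refine ⟨ε₀, hε₀, fun x y hxy => ?_⟩
  have hK := S.one_le_K
  let p : ℤ → X := fun n => match n with
    | Int.ofNat k => S.g^[k] x
    | Int.negSucc k => S.g.symm^[k + 1] y
  have hp : ∀ n, dist (S.g (p n)) (p (n + 1)) ≤ dist x y := by
    intro n
    match n with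
    | Int.ofNat k =>
      have : p (Int.ofNat k + 1) = S.g^[k + 1] x := rfl
      rw [this]
      have : p (Int.ofNat k) = S.g^[k] x := rfl
      rw [this, Function.iterate_succ_apply', dist_self]
      exact dist_nonneg
    | Int.negSucc 0 =>
      have h1 : p (Int.negSucc 0 + 1) = x := rfl
      have h2 : p (Int.negSucc 0) = S.g.symm y := rfl
      rw [h1, h2, Homeomorph.apply_symm_apply, dist_comm]
    | Int.negSucc (k + 1) =>
      have h1 : p (Int.negSucc (k + 1) + 1) = S.g.symm^[k + 1] y := rfl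
      have h2 : p (Int.negSucc (k + 1)) = S.g.symm^[k + 1 + 1] y := rfl
      rw [h1, h2, Function.iterate_succ_apply' _ (k + 1), Homeomorph.apply_symm_apply, dist_self]
      exact dist_nonneg
  obtain ⟨z, hz, hzd⟩ := hsh _ hxy p hp
  have hd : 0 ≤ dist x y := dist_nonneg
  have h8 : 8 * S.K * dist x y ≤ 9 * S.K * dist x y := by
    have : 0 ≤ S.K * dist x y := by positivity
    nlinarith
  refine ⟨z 0, fun k => ?_, fun k => ?_⟩
  · rw [dist_comm]
    have h1 := hzd k
    rw [S.orbit_nat z hz k] at h1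
    have h2 : p (k : ℤ) = S.g^[k] x := rfl
    rw [h2] at h1
    exact h1.trans h8
  · match k with
    | 0 =>
      have h1 := hzd 0
      have h2 : p 0 = x := rfl
      rw [h2] at h1
      simp only [Function.iterate_zero, id_eq]
      calc dist (z 0) y ≤ dist (z 0) x + dist x y := dist_triangle _ _ _
        _ ≤ 8 * S.K * dist x y + dist x y := by linarith
        _ ≤ 9 * S.K * dist x y := by nlinarith
    | k + 1 =>
      have h1 := hzd (-((k + 1 : ℕ) : ℤ))
      rw [S.orbit_neg z hz (k + 1)] at h1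
      have h2 : p (-((k + 1 : ℕ) : ℤ)) = S.g.symm^[k + 1] y := rfl
      rw [h2] at h1
      exact h1.trans h8

end HypSys

end Pool.Agent.H721R2
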