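import Pool.Agent.H66.L.S8.H721R2.Chain

set_option autoImplicit false

namespace Pool.Agent.H721R2

namespace HypSys

variable {X E : Type*} [MetricSpace X] [NormedAddCommGroup E] [NormedSpace ℝ E]

open Filter Topology

/-- Every two points are joined by a stable chain followed by an unstable chain. -/
theorem global_product [PreconnectedSpace X] (S : HypSys X E) (T : S.Setup) (x y : X) :
    ∃ w, S.SConn T.δ x w ∧ S.UConn T.δ w y := by
  have hK := S.one_le_K
  have hK0 : 0 < S.K := by linarith
  have hδ0 := T.δ_pos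
  set r := T.δ / (9 * S.K) with hr
  have hr0 : 0 < r := by positivity
  have hrK : 9 * S.K * r = T.δ := by rw [hr]; field_simp
  have hrδ : r ≤ T.δ := by
    rw [hr]
    apply div_le_self hδ0.le
    linarith
  set A : Set X := {y | ∃ w, S.SConn T.δ x w ∧ S.UConn T.δ w y} with hA
  have key : ∀ y y' : X, dist y y' ≤ r → y ∈ A → y' ∈ A := by
    intro y y' hyy' hy
    obtain ⟨w, hw1, hw2⟩ := hy
    obtain ⟨z, hz1, hz2⟩ := T.lp y y' (by linarith)
    have h9 : 9 * S.K * dist y y' ≤ T.δ := by
      rw [← hrK]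
      exact mul_le_mul_of_nonneg_left hyy' (by positivity)
    have hS : S.SConn T.δ y z := ⟨1, Chain.single (hz1.mono h9)⟩
    have hU : S.UConn T.δ z y' := ⟨1, Chain.single (hz2.mono h9)⟩
    obtain ⟨w', hw3, hw4⟩ := S.swap T y z w hS hw2.symm
    exact ⟨w', hw1.trans hw3, hw4.symm.trans hU⟩
  have hopen : IsOpen A := by
    rw [Metric.isOpen_iff]
    intro y hy
    refine ⟨r, hr0, fun y' hy' => key y y' ?_ hy⟩
    rw [dist_comm]
    exact (Metric.mem_ball.mp hy').le
  have hclosed : IsClosed A := by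
    rw [← isOpen_compl_iff, Metric.isOpen_iff]
    intro y hy
    refine ⟨r, hr0, fun y' hy' hy'A => hy (key y' y (Metric.mem_ball.mp hy').le hy'A)⟩
  have hx : x ∈ A := ⟨x, ⟨0, Chain.refl _⟩, ⟨0, Chain.refl _⟩⟩
  have huniv : A = Set.univ := IsClopen.eq_univ ⟨hclosed, hopen⟩ ⟨x, hx⟩
  have : y ∈ A := by rw [huniv]; trivial
  exact this

theorem tendsto_SConn (S : HypSys X E) (T : S.Setup) {x y : X} (h : S.SConn T.δ x y) :
    Tendsto (fun n => dist (S.g^[n] x) (S.g^[n] y)) atTop (𝓝 0) := by
  obtain ⟨N, c, h0, h1, h2⟩ := h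
  have hδ0 := T.δ_pos
  have hK := S.one_le_K
  have hδε : T.δ ≤ T.εs := by
    have := T.hδ
    have : 0 ≤ S.K * T.δ := by positivity
    linarith
  have key : ∀ i ≤ N, Tendsto (fun n => dist (S.g^[n] x) (S.g^[n] (c i))) atTop (𝓝 0) := by
    intro i
    induction i with
    | zero =>
      intro _
      rw [h0]
      simp
    | succ i ih =>
      intro hi
      have h3 := ih (by omega)
      have h4 : Tendsto (fun n => dist (S.g^[n] (c i)) (S.g^[n] (c (i + 1)))) atTop (𝓝 0) := by
        have h5 : Tendsto (fun n : ℕ => T.α ^ n * dist (c i) (c (i + 1))) atTop (𝓝 0) := by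
          have := (tendsto_pow_atTop_nhds_zero_of_lt_one T.α_pos
            (by linarith [T.α_le] : T.α < 1)).mul_const (dist (c i) (c (i + 1)))
          simpa using this
        exact squeeze_zero (fun _ => dist_nonneg)
          (fun n => T.contrS _ _ ((h2 i (by omega)).mono hδε) n) h5
      have h6 := h3.add h4
      rw [add_zero] at h6
      exact squeeze_zero (fun _ => dist_nonneg) (fun n => dist_triangle _ _ _) h6
  have := key N le_rfl
  rwa [h1] at this

theorem tendsto_UConn (S : HypSys X E) (T : S.Setup) {x y : X} (h : S.UConn T.δ x y) :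
    Tendsto (fun n => dist (S.g.symm^[n] x) (S.g.symm^[n] y)) atTop (𝓝 0) := by
  obtain ⟨N, c, h0, h1, h2⟩ := h
  have hδ0 := T.δ_pos
  have hK := S.one_le_K
  have hδε : T.δ ≤ T.εs := by
    have := T.hδ
    have : 0 ≤ S.K * T.δ := by positivity
    linarith
  have key : ∀ i ≤ N, Tendsto (fun n => dist (S.g.symm^[n] x) (S.g.symm^[n] (c i))) atTop
      (𝓝 0) := by
    intro i
    induction i with
    | zero =>
      intro _
      rw [h0]
      simp
    | succ i ih =>
      intro hi
      have h3 := ih (by omega)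
      have h4 : Tendsto (fun n => dist (S.g.symm^[n] (c i)) (S.g.symm^[n] (c (i + 1)))) atTop
          (𝓝 0) := by
        have h5 : Tendsto (fun n : ℕ => T.β ^ n * dist (c i) (c (i + 1))) atTop (𝓝 0) := by
          have := (tendsto_pow_atTop_nhds_zero_of_lt_one T.β_pos
            (by linarith [T.β_le] : T.β < 1)).mul_const (dist (c i) (c (i + 1)))
          simpa using this
        exact squeeze_zero (fun _ => dist_nonneg)
          (fun n => T.contrU _ _ ((h2 i (by omega)).mono hδε) n) h5
      have h6 := h3.add h4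
      rw [add_zero] at h6
      exact squeeze_zero (fun _ => dist_nonneg) (fun n => dist_triangle _ _ _) h6
  have := key N le_rfl
  rwa [h1] at this

/-- No proper trapping region. -/
theorem no_trapping [CompactSpace X] [PreconnectedSpace X] (S : HypSys X E) (T : S.Setup)
    (W : Set X) (hW : IsOpen W) (hne : W.Nonempty) (htrap : ∀ y ∈ closure W, S.g y ∈ W) :
    W = Set.univ := by
  by_contra hcon
  -- a point with backward orbit in `closure W`
  have hback : ∃ a, ∀ n : ℕ, S.g.symm^[n] a ∈ closure W := by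
    let F : ℕ → Set X := fun n => S.g^[n] '' closure W
    have hFc : ∀ n, IsCompact (F n) := fun n =>
      isClosed_closure.isCompact.image (S.g.continuous.iterate n)
    have hF : ∀ n, F (n + 1) ⊆ F n := by
      rintro n _ ⟨y, hy, rfl⟩
      refine ⟨S.g y, subset_closure (htrap y hy), ?_⟩
      rw [← Function.iterate_succ_apply]
    have hFn : ∀ n, (F n).Nonempty := fun n => (hne.mono subset_closure).image _
    obtain ⟨a, ha⟩ := IsCompact.nonempty_iInter_of_sequence_nonempty_isCompact_isClosed F hF hFn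
      (hFc 0) (fun n => (hFc n).isClosed)
    refine ⟨a, fun n => ?_⟩
    obtain ⟨y, hy, hya⟩ := Set.mem_iInter.mp ha n
    rw [← hya, iter_symm_iter]
    exact hy
  have hfwd : ∃ b, ∀ n : ℕ, S.g^[n] b ∈ Wᶜ := by
    let F : ℕ → Set X := fun n => S.g.symm^[n] '' Wᶜ
    have hFc : ∀ n, IsCompact (F n) := fun n =>
      hW.isClosed_compl.isCompact.image (S.g.symm.continuous.iterate n)
    have hF : ∀ n, F (n + 1) ⊆ F n := by
      rintro n _ ⟨y, hy, rfl⟩
      refine ⟨S.g.symm y, ?_, ?_⟩
      · intro h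
        apply hy
        have := htrap _ (subset_closure h)
        rwa [Homeomorph.apply_symm_apply] at this
      · rw [← Function.iterate_succ_apply]
    have hcne : (Wᶜ).Nonempty := Set.nonempty_compl.mpr hcon
    have hFn : ∀ n, (F n).Nonempty := fun n => hcne.image _
    obtain ⟨b, hb⟩ := IsCompact.nonempty_iInter_of_sequence_nonempty_isCompact_isClosed F hF hFn
      (hFc 0) (fun n => (hFc n).isClosed)
    refine ⟨b, fun n => ?_⟩
    obtain ⟨y, hy, hyb⟩ := Set.mem_iInter.mp hb n
    rw [← hyb, iter_iter_symm]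
    exact hy
  obtain ⟨a, ha⟩ := hback
  obtain ⟨b, hb⟩ := hfwd
  obtain ⟨w, hw1, hw2⟩ := S.global_product T b a
  -- separation
  have hAc : IsCompact (S.g '' closure W) := isClosed_closure.isCompact.image S.g.continuous
  have hAW : S.g '' closure W ⊆ W := by
    rintro _ ⟨y, hy, rfl⟩
    exact htrap y hy
  obtain ⟨r, hr0, hr⟩ := hAc.exists_thickening_subset_open hW hAW
  have hsep : ∀ y ∈ S.g '' closure W, ∀ z, dist y z < r → z ∈ W := by
    intro y hy z hz
    apply hr
    rw [Metric.mem_thickening_iff]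
    exact ⟨y, hy, by rwa [dist_comm]⟩
  -- backward orbit of w enters W
  have h1 := S.tendsto_UConn T hw2
  obtain ⟨n, hn⟩ := ((tendsto_order.mp h1).2 r hr0).exists
  have hwn : S.g.symm^[n] w ∈ W := by
    refine hsep (S.g.symm^[n] a) ⟨S.g.symm^[n + 1] a, ha _, ?_⟩ _ (by rwa [dist_comm])
    rw [Function.iterate_succ_apply', Homeomorph.apply_symm_apply]
  have hinv : ∀ m : ℕ, ∀ z ∈ W, S.g^[m + 1] z ∈ S.g '' closure W := by
    intro m
    induction m with
    | zero =>
      intro z hz
      exact ⟨z, subset_closure hz, rfl⟩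
    | succ m ih =>
      intro z hz
      rw [Function.iterate_succ_apply]
      exact ih _ (htrap z (subset_closure hz))
  have h2 := S.tendsto_SConn T hw1
  obtain ⟨m, hm⟩ := ((tendsto_order.mp h2).2 r hr0).exists
  have h3 : S.g^[m + 1] w ∈ S.g '' closure W := by
    have h4 := hinv (m + n) _ hwn
    rw [show m + n + 1 = (m + 1) + n by ring, Function.iterate_add_apply, iter_iter_symm] at h4
    exact h4
  have h2' := (h2.comp (tendsto_add_atTop_nat 1))
  obtain ⟨m', hm'⟩ := ((tendsto_order.mp h2').2 r hr0).exists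
  simp only [Function.comp] at hm'
  have h3' : S.g^[m' + 1] w ∈ S.g '' closure W := by
    have h4 := hinv (m' + n) _ hwn
    rw [show m' + n + 1 = (m' + 1) + n by ring, Function.iterate_add_apply, iter_iter_symm] at h4
    exact h4
  exact hb (m' + 1) (hsep _ h3' _ (by rwa [dist_comm]))

/-- Topological transitivity. -/
theorem transitive [CompactSpace X] [PreconnectedSpace X] (S : HypSys X E) (T : S.Setup)
    (U V : Set X) (hU : IsOpen U) (hUn : U.Nonempty) (hV : IsOpen V) (hVn : V.Nonempty) :
    ∃ n : ℕ, (S.g^[n] '' U ∩ V).Nonempty := by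
  obtain ⟨a, ha⟩ := hUn
  obtain ⟨b, hb⟩ := hVn
  obtain ⟨r1, hr1, hU1⟩ := Metric.isOpen_iff.mp hU a ha
  obtain ⟨r2, hr2, hV1⟩ := Metric.isOpen_iff.mp hV b hb
  obtain ⟨ε₀, hε₀, hsh⟩ := S.shadowing
  have hK := S.one_le_K
  have hK0 : 0 < S.K := by linarith
  set r := min r1 r2 with hr
  have hr0 : 0 < r := lt_min hr1 hr2
  set ε := min ε₀ (r / (16 * S.K)) with hε
  have hεp : 0 < ε := lt_min hε₀ (by positivity)
  have hεr : 8 * S.K * ε < r := by
    have : ε ≤ r / (16 * S.K) := min_le_right _ _
    rw [le_div_iff₀ (by positivity)] at this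
    linarith
  -- reachable set
  let R : X → X → Prop := fun x y => dist (S.g x) y < ε
  set W : Set X := {y | ∃ n, Chain R (n + 1) a y} with hW
  have hWopen : IsOpen W := by
    rw [Metric.isOpen_iff]
    rintro y ⟨n, c, h0, h1, h2⟩
    have h3 : dist (S.g (c n)) y < ε := by
      have := h2 n (by omega)
      rwa [h1] at this
    refine ⟨ε - dist (S.g (c n)) y, by linarith, fun y' hy' => ?_⟩
    have h4 : dist (S.g (c n)) y' < ε := by
      have := dist_triangle (S.g (c n)) y y'
      have := Metric.mem_ball.mp hy'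
      rw [dist_comm] at this
      linarith
    have h5 : Chain R n a (c n) := ⟨c, h0, rfl, fun i hi => h2 i (by omega)⟩
    exact ⟨n, h5.trans (Chain.single h4)⟩
  have hWne : W.Nonempty := ⟨S.g a, 0, Chain.single (by show dist _ _ < ε; rw [dist_self]; exact hεp)⟩
  have htrap : ∀ y ∈ closure W, S.g y ∈ W := by
    intro y hy
    have hcont := Metric.continuous_iff.mp S.g.continuous y ε hεp
    obtain ⟨δ, hδ, hcont⟩ := hcont
    obtain ⟨y', hy', hd⟩ := Metric.mem_closure_iff.mp hy δ hδ
    have h1 := hcont y' (by rwa [dist_comm])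
    obtain ⟨n, hn⟩ := hy'
    exact ⟨n + 1, hn.trans (Chain.single h1)⟩
  have hWuniv := S.no_trapping T W hWopen hWne htrap
  have hbW : b ∈ W := by rw [hWuniv]; trivial
  obtain ⟨n, c, h0, h1, h2⟩ := hbW
  -- bi-infinite pseudo orbit
  let p : ℤ → X := fun k => match k with
    | Int.ofNat k => if k ≤ n + 1 then c k else S.g^[k - (n + 1)] b
    | Int.negSucc k => S.g.symm^[k + 1] a
  have hp : ∀ k, dist (S.g (p k)) (p (k + 1)) ≤ ε := by
    intro k
    match k with
    | Int.ofNat k =>
      have e1 : p (Int.ofNat k + 1) = if k + 1 ≤ n + 1 then c (k + 1) else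
        S.g^[k + 1 - (n + 1)] b := rfl
      have e2 : p (Int.ofNat k) = if k ≤ n + 1 then c k else S.g^[k - (n + 1)] b := rfl
      rw [e1, e2]
      by_cases hk : k + 1 ≤ n + 1
      · rw [if_pos hk, if_pos (by omega)]
        exact (h2 k (by omega)).le
      · rw [if_neg hk]
        by_cases hk2 : k ≤ n + 1
        · have : k = n + 1 := by omega
          subst this
          rw [if_pos le_rfl, h1, show n + 1 + 1 - (n + 1) = 1 by omega]
          simp only [Function.iterate_one, dist_self]
          exact hεp.le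
        · rw [if_neg hk2, show k + 1 - (n + 1) = (k - (n + 1)) + 1 by omega,
            Function.iterate_succ_apply', dist_self]
          exact hεp.le
    | Int.negSucc 0 =>
      have e1 : p (Int.negSucc 0 + 1) = if 0 ≤ n + 1 then c 0 else S.g^[0 - (n + 1)] b := rfl
      have e2 : p (Int.negSucc 0) = S.g.symm a := rfl
      rw [e1, e2, if_pos (by omega), h0, Homeomorph.apply_symm_apply, dist_self]
      exact hεp.le
    | Int.negSucc (k + 1) =>
      have e1 : p (Int.negSucc (k + 1) + 1) = S.g.symm^[k + 1] a := rfl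
      have e2 : p (Int.negSucc (k + 1)) = S.g.symm^[k + 1 + 1] a := rfl
      rw [e1, e2, Function.iterate_succ_apply' _ (k + 1), Homeomorph.apply_symm_apply, dist_self]
      exact hεp.le
  obtain ⟨y, hy, hyd⟩ := hsh ε (min_le_left _ _) p hp
  refine ⟨n + 1, S.g^[n + 1] (y 0), ⟨y 0, hU1 ?_, rfl⟩, hV1 ?_⟩
  · rw [Metric.mem_ball]
    have h3 := hyd 0
    have e1 : p 0 = if 0 ≤ n + 1 then c 0 else S.g^[0 - (n + 1)] b := rfl
    rw [e1, if_pos (by omega), h0] at h3
    exact lt_of_le_of_lt h3 (lt_of_lt_of_le hεr (min_le_left _ _))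
  · rw [Metric.mem_ball, ← S.orbit_nat y hy (n + 1)]
    have h3 := hyd ((n + 1 : ℕ) : ℤ)
    have e1 : p ((n + 1 : ℕ) : ℤ) = if n + 1 ≤ n + 1 then c (n + 1) else
      S.g^[n + 1 - (n + 1)] b := rfl
    rw [e1, if_pos le_rfl, h1] at h3
    exact lt_of_le_of_lt h3 (lt_of_lt_of_le hεr (min_le_right _ _))

end HypSys

end Pool.Agent.H721R2
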